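import Pool.Agent.W5h86.HD.Expand

set_option autoImplicit false

/-!
# The cover given by the powers of the coordinates is a quotient by a finite group
-/

universe u

namespace Pool.Agent.W5h86.HD

open MvPolynomial Pool.Agent.W5h86.HC

section

variable {K L : Type u} [Field K] [Field L] [Algebra K L] {N m : ℕ}

lemma phiAlg_tower : @IsScalarTower K (MvPolynomial (Fin N) K) (MvPolynomial (Fin N) L)
    _ (phiAlg K L N m).toSMul _ := by
  letI := phiAlg K L N m
  exact IsScalarTower.of_algebraMap_eq fun a => ((phi K L N m).commutes a).symm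

lemma phiAlg_integral [Module.Finite K L] (hm : 0 < m) :
    @Algebra.IsIntegral (MvPolynomial (Fin N) K) (MvPolynomial (Fin N) L) _ _
      (phiAlg K L N m) := by
  letI := phiAlg K L N m
  have hst : IsScalarTower K (MvPolynomial (Fin N) K) (MvPolynomial (Fin N) L) := phiAlg_tower
  refine ⟨fun f => ?_⟩
  induction f using MvPolynomial.induction_on with
  | C a =>
    have h1 : IsIntegral K a := Algebra.IsIntegral.isIntegral a
    have h2 : IsIntegral K (C a : MvPolynomial (Fin N) L) :=
      h1.map (IsScalarTower.toAlgHom K L (MvPolynomial (Fin N) L))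
    exact h2.tower_top
  | add p q hp hq => exact hp.add hq
  | mul_X p i hp =>
    refine hp.mul ?_
    refine IsIntegral.of_pow hm ?_
    have h1 : (X i : MvPolynomial (Fin N) L) ^ m =
        algebraMap (MvPolynomial (Fin N) K) (MvPolynomial (Fin N) L) (X i) := (phi_X m i).symm
    rw [h1]
    exact isIntegral_algebraMap

lemma phiAlg_finite [Module.Finite K L] (hm : 0 < m) :
    @Module.Finite (MvPolynomial (Fin N) K) (MvPolynomial (Fin N) L) _ _
      (phiAlg K L N m).toModule := by
  letI := phiAlg K L N m
  have hst : IsScalarTower K (MvPolynomial (Fin N) K) (MvPolynomial (Fin N) L) := phiAlg_tower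
  have hint : Algebra.IsIntegral (MvPolynomial (Fin N) K) (MvPolynomial (Fin N) L) :=
    phiAlg_integral hm
  have hft : Algebra.FiniteType K (MvPolynomial (Fin N) L) :=
    Algebra.FiniteType.trans (S := L) inferInstance inferInstance
  have hft' : Algebra.FiniteType (MvPolynomial (Fin N) K) (MvPolynomial (Fin N) L) :=
    Algebra.FiniteType.of_restrictScalars_finiteType K _ _
  exact Algebra.IsIntegral.finite

/-- The group of the cover. -/
abbrev MuGroup (L : Type u) [Field L] (N m : ℕ) : Type u := Fin N → rootsOfUnity m L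

/-- The multiplication of the coordinates by units. -/
noncomputable def scaleEquiv (ζ : Fin N → Lˣ) :
    MvPolynomial (Fin N) L ≃+* MvPolynomial (Fin N) L where
  toFun := scale L (fun i => (ζ i : L))
  invFun := scale L (fun i => ((ζ i)⁻¹ : Lˣ))
  left_inv f := by
    rw [scale_scale]
    have h1 : ((fun i => (((ζ i)⁻¹ : Lˣ) : L)) * fun i => ((ζ i : Lˣ) : L)) = 1 := by
      funext i
      rw [Pi.mul_apply, Units.inv_mul, Pi.one_apply]
    rw [h1, scale_one]
  right_inv f := by
    rw [scale_scale]
    have h1 : ((fun i => ((ζ i : Lˣ) : L)) * fun i => (((ζ i)⁻¹ : Lˣ) : L)) = 1 := by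
      funext i
      rw [Pi.mul_apply, Units.mul_inv, Pi.one_apply]
    rw [h1, scale_one]
  map_mul' f g := map_mul _ f g
  map_add' f g := map_add _ f g

lemma scaleEquiv_phi (ζ : MuGroup L N m) (f : MvPolynomial (Fin N) K) :
    scaleEquiv (fun i => (ζ i : Lˣ)) (phi K L N m f) = phi K L N m f := by
  change scale L _ (phi K L N m f) = phi K L N m f
  refine scale_phi (fun i => ?_) f
  have h1 := (ζ i).2
  rw [mem_rootsOfUnity] at h1
  rw [← Units.val_pow_eq_pow_val, h1, Units.val_one]

/-- The action of the group of the cover. -/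
noncomputable def muAct (K L : Type u) [Field K] [Field L] [Algebra K L] (N m : ℕ) :
    letI := phiAlg K L N m
    MuGroup L N m →*
      (MvPolynomial (Fin N) L ≃ₐ[MvPolynomial (Fin N) K] MvPolynomial (Fin N) L) :=
  letI := phiAlg K L N m
  { toFun := fun ζ => AlgEquiv.ofRingEquiv (f := scaleEquiv (fun i => (ζ i : Lˣ)))
      (scaleEquiv_phi ζ)
    map_one' := by
      refine AlgEquiv.ext fun f => ?_
      change scale L _ f = f
      have h1 : (fun i => (((1 : MuGroup L N m) i : Lˣ) : L)) = 1 := by
        funext i
        rw [Pi.one_apply, OneMemClass.coe_one, Units.val_one, Pi.one_apply]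
      rw [h1, scale_one]
    map_mul' := fun ζ ζ' => by
      refine AlgEquiv.ext fun f => ?_
      change scale L _ f = scale L _ (scale L _ f)
      rw [scale_scale]
      congr 1 }

lemma muAct_apply (ζ : MuGroup L N m) (f : MvPolynomial (Fin N) L) :
    letI := phiAlg K L N m
    muAct K L N m ζ f = scale L (fun i => ((ζ i : Lˣ) : L)) f := rfl

theorem isQuot_mu [Module.Finite K L] (hsurj : Function.Surjective (algebraMap K L)) (hm : 0 < m)
    (hζ : ∃ ζ : L, IsPrimitiveRoot ζ m) :
    letI := phiAlg K L N m
    IsQuot (muAct K L N m) := by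
  letI := phiAlg K L N m
  have hst : IsScalarTower K (MvPolynomial (Fin N) K) (MvPolynomial (Fin N) L) := phiAlg_tower
  have hint : Algebra.IsIntegral (MvPolynomial (Fin N) K) (MvPolynomial (Fin N) L) :=
    phiAlg_integral hm
  have hmap : ∀ f, algebraMap (MvPolynomial (Fin N) K) (MvPolynomial (Fin N) L) f =
    phi K L N m f := fun f => rfl
  refine ⟨?_, ?_, ?_, ?_⟩
  · intro P' hP'
    constructor
    · intro h
      refine isHomIdeal_of_minimal' ?_ (over_minimal (S := MvPolynomial (Fin N) K)
        (P := P'.comap (algebraMap _ _)) ⟨hP', rfl⟩)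
      refine isHomIdeal_span ?_
      rintro _ ⟨f, hf, rfl⟩ k
      change homogeneousComponent k (phi K L N m f) ∈ _
      by_cases hk : m ∣ k
      · obtain ⟨i, rfl⟩ := hk
        rw [phi_homogeneousComponent hm]
        exact Ideal.subset_span ⟨homogeneousComponent i f, h f hf i, rfl⟩
      · rw [phi_homogeneousComponent' f hk]
        exact Ideal.zero_mem _
    · intro h f hf i
      rw [Ideal.mem_comap, hmap, ← phi_homogeneousComponent hm]
      exact h _ hf _
  · intro P' hP'
    rw [trdeg_comap_integral (K := K) hP']
    have h1 := trdeg_add_eq K L (A := MvPolynomial (Fin N) L ⧸ P')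
    rw [← h1, trdeg_eq_zero (R := K) (A := L), zero_add]
  · intro r e hr h
    classical
    obtain ⟨ζ, hζ⟩ := hζ
    -- divisibility of the exponents
    have hdiv : ∀ a, coeff a r ≠ 0 → ∀ i, m ∣ a i := by
      intro a ha i
      have hζu : IsUnit ζ := hζ.isUnit (by omega)
      obtain ⟨u, hu⟩ := hζu
      have hu' : u ∈ rootsOfUnity m L := by
        rw [mem_rootsOfUnity]
        apply Units.ext
        rw [Units.val_pow_eq_pow_val, hu, hζ.pow_eq_one, Units.val_one]
      have h1 := congrArg (coeff a) (h (Function.update 1 i ⟨u, hu'⟩))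
      rw [muAct_apply, coeff_scale] at h1
      have h2 : ∏ i', (fun i' => (((Function.update (1 : MuGroup L N m) i ⟨u, hu'⟩) i' : Lˣ) : L)) i'
          ^ a i' = ζ ^ a i := by
        rw [Finset.prod_eq_single i]
        · simp [hu]
        · intro i' _ hne
          simp [Function.update_of_ne hne]
        · simp
      rw [h2] at h1
      have h3 : ζ ^ a i = 1 := by
        have h4 : coeff a r * (ζ ^ a i - 1) = 0 := by
          rw [mul_sub, h1, mul_one, sub_self]
        exact sub_eq_zero.1 ((mul_eq_zero.1 h4).resolve_left ha)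
      exact hζ.dvd_of_pow_eq_one _ h3
    choose ι hι using hsurj
    set s : MvPolynomial (Fin N) K :=
      ∑ a ∈ r.support, monomial (a.mapRange (fun x => x / m) (Nat.zero_div m)) (ι (coeff a r))
      with hs
    have hsr : phi K L N m s = r := by
      rw [hs, map_sum]
      conv_rhs => rw [r.as_sum]
      refine Finset.sum_congr rfl fun a ha => ?_
      have hexp : m • a.mapRange (fun x => x / m) (Nat.zero_div m) = a := by
        ext i
        rw [Finsupp.smul_apply, Finsupp.mapRange_apply, smul_eq_mul]
        exact Nat.mul_div_cancel' (hdiv a (mem_support_iff.1 ha) i)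
      rw [phi_monomial, hι, hexp]
    refine ⟨s, e / m, ?_, hsr⟩
    refine IsHomogeneous.sum _ _ _ fun a ha => ?_
    refine isHomogeneous_monomial _ ?_
    have h1 : a.degree = e := by
      have h2 := hr (mem_support_iff.1 ha)
      rw [Finsupp.degree_eq_weight_one]
      exact h2
    rw [← h1, Finsupp.degree_eq_sum, Finsupp.degree_eq_sum]
    symm
    apply Nat.div_eq_of_eq_mul_right hm
    rw [Finset.mul_sum]
    refine Finset.sum_congr rfl fun i _ => ?_
    rw [Finsupp.mapRange_apply]
    exact (Nat.mul_div_cancel' (hdiv a (mem_support_iff.1 ha) i)).symm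
  · intro ζ f e hf
    rw [muAct_apply]
    exact isHomogeneous_scale _ hf

/-- **Descent of rational equivalence along the powers of the coordinates.** -/
theorem pt_mem_of_phi [Module.Finite K L] [CharZero L]
    (hsurj : Function.Surjective (algebraMap K L)) (hm : 0 < m)
    (hζ : ∃ ζ : L, IsPrimitiveRoot ζ m) {F l : MvPolynomial (Fin N) K} {t : ℕ}
    {P : Ideal (MvPolynomial (Fin N) K)} (hP : IsSub t l P) (hFP : F ∈ P)
    (h : ∀ P' : Ideal (MvPolynomial (Fin N) L), IsSub t (phi K L N m l) P' →
      phi K L N m F ∈ P' → pt P' ∈ Rel (phi K L N m F) t (phi K L N m l)) :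
    pt P ∈ Rel F t l := by
  letI := phiAlg K L N m
  have hst : IsScalarTower K (MvPolynomial (Fin N) K) (MvPolynomial (Fin N) L) := phiAlg_tower
  have hint : Algebra.IsIntegral (MvPolynomial (Fin N) K) (MvPolynomial (Fin N) L) :=
    phiAlg_integral hm
  have hfin : Module.Finite (MvPolynomial (Fin N) K) (MvPolynomial (Fin N) L) := phiAlg_finite hm
  have hfg : Finite (MuGroup L N m) := by
    have h1 : NeZero m := ⟨by omega⟩
    infer_instance
  have hq : IsQuot (muAct K L N m) := isQuot_mu hsurj hm hζ
  have hp := hP.prime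
  have hinj : Function.Injective (phi K L N m) := by
    rw [injective_iff_map_eq_zero]
    intro f hf
    ext a
    rw [coeff_zero]
    have h1 : coeff (m • a) (phi K L N m f) = algebraMap K L (coeff a f) := by
      clear hf
      induction f using MvPolynomial.induction_on' with
      | monomial b c =>
        classical
        rw [phi_monomial, coeff_monomial, coeff_monomial]
        by_cases hab : b = a
        · rw [if_pos hab, if_pos (by rw [hab])]
        · rw [if_neg hab, if_neg, map_zero]
          intro h2
          apply hab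
          ext i
          have h3 := DFunLike.congr_fun h2 i
          rw [Finsupp.smul_apply, Finsupp.smul_apply, smul_eq_mul, smul_eq_mul] at h3
          exact Nat.eq_of_mul_eq_mul_left hm h3
      | add p q hp hq => rw [map_add, coeff_add, coeff_add, hp, hq, map_add]
    rw [hf, coeff_zero] at h1
    exact (map_eq_zero_iff _ (algebraMap K L).injective).1 h1.symm
  obtain ⟨P', -, hP', hcomap⟩ := Ideal.exists_ideal_over_prime_of_isIntegral
    (S := MvPolynomial (Fin N) L) P ⊥ (by
      intro x hx
      have h1 : phi K L N m x = 0 := hx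
      rw [map_eq_zero_iff _ hinj] at h1
      rw [h1]
      exact P.zero_mem)
  have hsub : IsSub t (phi K L N m l) P' := by
    have h1 := hq.isSub_iff (l := l) (t := t) hP'
    rw [hcomap] at h1
    exact h1.1 hP
  have hF' : phi K L N m F ∈ P' := by
    rw [← hcomap] at hFP
    exact hFP
  have h2 := hq.pt_mem (F := F) (l := l) (t := t) hP' (h P' hsub hF')
  rw [hcomap] at h2
  exact h2

end

/-- Smoothness of the cover. -/
theorem smooth_phi {k : Type u} [Field k] [CharZero k] {N₀ N m : ℕ} (hm : 0 < m)
    {F : MvPolynomial (Fin N₀) k} {g : Matrix (Fin N₀) (Fin N) k}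
    (hg : ∀ (n : ℕ) (e : Fin n ↪ Fin N), Smooth (lsub k (g.submatrix id e) F)) :
    Smooth (phi k k N m (lsub k g F)) := by
  classical
  intro L _ _ x hx h0
  by_contra hcon
  push Not at hcon
  have hL : CharZero L := charZero_of_injective_algebraMap (algebraMap k L).injective
  set G := lsub k g F with hG
  have haev : ∀ f : MvPolynomial (Fin N) k, aeval x (phi k k N m f) =
      aeval (fun i => x i ^ m) f := by
    intro f
    have h1 : (aeval x).comp (phi k k N m) = aeval (fun i => x i ^ m) := by
      apply MvPolynomial.algHom_ext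
      intro i
      rw [AlgHom.comp_apply, phi_X, map_pow, aeval_X, aeval_X]
    exact congrArg (fun F => F f) h1
  have hpd : ∀ (f : MvPolynomial (Fin N) k) i, aeval x (pderiv i (phi k k N m f)) =
      aeval (fun i => x i ^ m) (pderiv i f) * (m * x i ^ (m - 1)) := by
    intro f i
    induction f using MvPolynomial.induction_on with
    | C a => rw [phi_C, pderiv_C, pderiv_C, map_zero, map_zero, zero_mul]
    | add p q hp hq => simp only [map_add, hp, hq, add_mul]
    | mul_X p j hp =>
      rw [map_mul, phi_X, pderiv_mul, pderiv_mul, map_add, map_add, map_mul, map_mul, map_mul,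
        map_mul, hp, haev, map_pow, aeval_X, aeval_X, pderiv_pow, map_mul, map_mul, map_pow,
        aeval_X, map_natCast]
      by_cases hij : i = j
      · subst hij
        rw [pderiv_X_self, map_one, map_one]
        ring
      · rw [pderiv_X_of_ne (Ne.symm hij), map_zero, map_zero]
        ring
  rw [haev] at h0
  -- the support
  set I : Finset (Fin N) := Finset.univ.filter fun i => x i ≠ 0 with hI
  set e : Fin I.card ↪ Fin N := (I.orderEmbOfFin rfl).toEmbedding with he
  have heI : ∀ j, e j ∈ I := fun j => I.orderEmbOfFin_mem rfl j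
  have hIe : ∀ i ∈ I, ∃ j, e j = i := by
    intro i hi
    have h1 : Set.range (I.orderEmbOfFin rfl) = (I : Set (Fin N)) := I.range_orderEmbOfFin rfl
    have h2 : i ∈ Set.range (I.orderEmbOfFin rfl) := by
      rw [h1]
      exact hi
    exact h2
  have hsum : ∀ φ : Fin N → L, ∑ j, φ (e j) * x (e j) ^ m = ∑ i, φ i * x i ^ m := by
    intro φ
    have h1 : ∑ i, φ i * x i ^ m = ∑ i ∈ I, φ i * x i ^ m := by
      symm
      apply Finset.sum_subset (Finset.subset_univ I)
      intro i _ hi
      rw [hI, Finset.mem_filter, not_and, not_not] at hi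
      rw [hi (Finset.mem_univ _), zero_pow (by omega), mul_zero]
    rw [h1]
    refine Finset.sum_bij (fun j _ => e j) (fun j _ => heI j) (fun j _ j' _ h => e.injective h)
      (fun i hi => ?_) (fun j _ => rfl)
    obtain ⟨j, hj⟩ := hIe i hi
    exact ⟨j, Finset.mem_univ _, hj⟩
  have hs := hg I.card e
  rw [smooth_lsub_self_iff] at hs
  have hpt : (fun i => ∑ j, algebraMap k L (g.submatrix id e i j) * x (e j) ^ m) =
      fun i => ∑ i', algebraMap k L (g i i') * x i' ^ m := by
    funext i
    exact hsum fun i' => algebraMap k L (g i i')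
  obtain ⟨j, hj⟩ := hs L (fun j => x (e j) ^ m) (by
      intro h1
      obtain ⟨i, hi⟩ : ∃ i, x i ≠ 0 := by
        by_contra h2
        push Not at h2
        exact hx (funext h2)
      obtain ⟨j, hj⟩ := hIe i (by
        rw [hI, Finset.mem_filter]
        exact ⟨Finset.mem_univ _, hi⟩)
      have h2 := congrFun h1 j
      simp only [hj, Pi.zero_apply] at h2
      exact hi (eq_zero_of_pow_eq_zero h2)) (by
      rw [hpt, ← aeval_lsub, ← hG]
      exact h0)
  apply hj
  rw [hpt]
  have h3 := hcon (e j)
  rw [hpd] at h3
  have h4 : (m : L) * x (e j) ^ (m - 1) ≠ 0 := by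
    refine mul_ne_zero (by exact_mod_cast hm.ne') (pow_ne_zero _ ?_)
    have h5 : ∀ i, i ∈ I → x i ≠ 0 := fun i hi => by
      rw [hI, Finset.mem_filter] at hi
      exact hi.2
    exact h5 _ (heI j)
  have h5 := (mul_eq_zero.1 h3).resolve_right h4
  rw [hG, pderiv_lsub, map_sum] at h5
  simp only [map_mul, aeval_C, aeval_lsub] at h5
  exact h5

end Pool.Agent.W5h86.HD
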