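import Pool.Agent.W5h86.HD.Irred

set_option autoImplicit false

/-!
# Relations on the complement of an arbitrary hypersurface
-/

universe u

namespace Pool.Agent.W5h86.HD

open MvPolynomial Pool.Agent.W5h86.HC

variable {K : Type u} [Field K]

/-- Relations on the complement of a hypersurface, given a subvariety whose hyperplane section is
the linear section. -/
theorem pt_mem_rel_of_sect {N i : ℕ} {G : MvPolynomial (Fin N) K} {t : ℕ}
    (h : LinSpan i G) (ht : t + i + 1 = N) {ℓ : Fin i → Fin N → K} (hℓ : LinearIndependent K ℓ)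
    (hG : G ∉ Ideal.span (Set.range fun k => lform (ℓ k)))
    {J : Ideal (MvPolynomial (Fin N) K)} (hJ : IsSub (t + 1) 1 J) (hGJ : G ∈ J)
    {y : MvPolynomial (Fin N) K} {e : ℕ} (hy : IsHomogeneous y e) (hyJ : y ∉ J)
    (hJy : Ideal.span {G} ⊔ Ideal.span (Set.range fun k => lform (ℓ k)) = J ⊔ Ideal.span {y})
    {l : MvPolynomial (Fin N) K} {P : Ideal (MvPolynomial (Fin N) K)} (hP : IsSub t l P)
    (hGP : G ∈ P) : pt P ∈ Rel G t l := by
  obtain ⟨hP1, hlP⟩ := HC.isSub_iff.1 hP
  have h1 := h ℓ hℓ hG t ht P hP1 hGP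
  have h2 := Submodule.mem_map_of_mem (f := restr l) h1
  rw [restr_pt hlP, Submodule.map_sup, Submodule.map_span, Set.image_singleton] at h2
  have hsect : sect t G ℓ = idiv t 1 J y := by
    unfold sect idiv
    rw [hJy]
  have h3 : restr l (sect t G ℓ) ∈ Rel G t l := by
    by_cases hl : l ∈ J
    · have h4 : restr l (sect t G ℓ) = 0 := by
        funext P'
        by_cases h' : l ∈ P'
        · rw [restr_of_mem _ h']
          rfl
        · rw [restr_of_not_mem _ h', hsect]
          by_contra h5
          exact h' ((le_of_idiv_ne_zero h5).2.1 hl)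
      rw [h4]
      exact Submodule.zero_mem _
    · have h4 : restr l (sect t G ℓ) = idiv t l J y := by
        funext P'
        by_cases h' : l ∈ P'
        · rw [restr_of_mem _ h', idiv_of_not]
          exact fun h5 => (HC.isSub_iff.1 h5).2 h'
        · rw [restr_of_not_mem _ h', hsect]
          by_cases h5 : IsSub t 1 P'
          · rw [idiv_of h5, idiv_of (HC.isSub_iff.2 ⟨h5, h'⟩)]
          · rw [idiv_of_not h5, idiv_of_not]
            exact fun h6 => h5 (HC.isSub_iff.1 h6).1
      rw [h4]
      exact Submodule.subset_span ⟨J, y, e, HC.isSub_iff.2 ⟨hJ, hl⟩, hGJ, hy, hyJ, rfl⟩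
  have h4 : Submodule.span ℚ {restr l (sect t G ℓ)} ⊔ (RatEq G t).map (restr l) ≤ Rel G t l := by
    refine sup_le ?_ ?_
    · rw [Submodule.span_le, Set.singleton_subset_iff]
      exact h3
    · intro c hc
      exact restr_ratEq hc
  exact h4 h2

section coord

variable {M p : ℕ}

/-- The coordinate subspace on which the last `p` coordinates vanish. -/
def csub (K : Type u) [Field K] (M p : ℕ) : Matrix (Fin (M + 1 + p)) (Fin (M + 1)) K :=
  Matrix.of fun i k => if i = Fin.castAdd p k then 1 else 0

/-- A left inverse of `csub`. -/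
def cinv (K : Type u) [Field K] (M p : ℕ) : Matrix (Fin (M + 1)) (Fin (M + 1 + p)) K :=
  Matrix.of fun k i => if i = Fin.castAdd p k then 1 else 0

lemma cinv_mul_csub : cinv K M p * csub K M p = 1 := by
  ext k k'
  rw [Matrix.mul_apply, Finset.sum_eq_single (Fin.castAdd p k)]
  · simp only [cinv, csub, Matrix.of_apply, if_true, one_mul, Matrix.one_apply]
    by_cases h : k = k'
    · rw [if_pos (by rw [h]), if_pos h]
    · rw [if_neg (fun h1 => h (Fin.castAdd_injective _ _ h1)), if_neg h]
  · intro i _ hi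
    simp only [cinv, Matrix.of_apply]
    rw [if_neg hi, zero_mul]
  · simp

lemma lsub_csub_castAdd (k : Fin (M + 1)) :
    lsub K (csub K M p) (X (Fin.castAdd p k)) = X k := by
  rw [lsub_X, Finset.sum_eq_single k]
  · simp [csub]
  · intro k' _ hk'
    simp only [csub, Matrix.of_apply]
    rw [if_neg (fun h1 => hk' (Fin.castAdd_injective _ _ h1).symm), map_zero, zero_mul]
  · simp

lemma lsub_csub_natAdd (k : Fin p) :
    lsub K (csub K M p) (X (Fin.natAdd (M + 1) k)) = 0 := by
  rw [lsub_X, Finset.sum_eq_zero]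
  intro k' _
  simp only [csub, Matrix.of_apply]
  rw [if_neg, map_zero, zero_mul]
  intro h
  have h1 := congrArg Fin.val h
  rw [Fin.val_natAdd, Fin.val_castAdd] at h1
  omega

lemma lsub_cinv (k : Fin (M + 1)) :
    lsub K (cinv K M p) (X k) = X (Fin.castAdd p k) := by
  rw [lsub_X, Finset.sum_eq_single (Fin.castAdd p k)]
  · simp [cinv]
  · intro i _ hi
    simp only [cinv, Matrix.of_apply]
    rw [if_neg hi, map_zero, zero_mul]
  · simp

lemma lsub_csub_inv (y : MvPolynomial (Fin (M + 1)) K) :
    lsub K (csub K M p) (lsub K (cinv K M p) y) = y := by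
  rw [lsub_lsub, cinv_mul_csub, lsub_one]
  rfl

/-- the ideal of the coordinate subspace -/
noncomputable def tailIdeal (K : Type u) [Field K] (M p : ℕ) :
    Ideal (MvPolynomial (Fin (M + 1 + p)) K) :=
  Ideal.span (Set.range fun k : Fin p => X (Fin.natAdd (M + 1) k))

lemma sub_mem_tailIdeal (f : MvPolynomial (Fin (M + 1 + p)) K) :
    f - lsub K (cinv K M p) (lsub K (csub K M p) f) ∈ tailIdeal K M p := by
  rw [← Ideal.Quotient.eq_zero_iff_mem, map_sub, sub_eq_zero]
  have h1 : (Ideal.Quotient.mkₐ K (tailIdeal K M p)).comp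
      ((lsub K (cinv K M p)).comp (lsub K (csub K M p))) = Ideal.Quotient.mkₐ K (tailIdeal K M p) := by
    apply MvPolynomial.algHom_ext
    intro i
    rw [AlgHom.comp_apply, AlgHom.comp_apply]
    induction i using Fin.addCases with
    | left k => rw [lsub_csub_castAdd, lsub_cinv]
    | right k =>
      rw [lsub_csub_natAdd, map_zero, map_zero]
      symm
      exact Ideal.Quotient.eq_zero_iff_mem.2 (Ideal.subset_span ⟨k, rfl⟩)
  exact (DFunLike.congr_fun h1 f).symm

/-- the ideal of the linear section -/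
noncomputable def secIdeal (M p : ℕ) (G : MvPolynomial (Fin (M + 1 + p)) K) :
    Ideal (MvPolynomial (Fin (M + 1 + p)) K) :=
  (Ideal.span {lsub K (csub K M p) G}).comap (lsub K (csub K M p))

lemma secIdeal_eq (G : MvPolynomial (Fin (M + 1 + p)) K) :
    secIdeal M p G = Ideal.span {G} ⊔ tailIdeal K M p := by
  apply le_antisymm
  · intro f hf
    have h1 : lsub K (csub K M p) f ∈ Ideal.span {lsub K (csub K M p) G} := hf
    obtain ⟨c, hc⟩ := Ideal.mem_span_singleton'.1 h1
    have h2 := sub_mem_tailIdeal (f - lsub K (cinv K M p) c * G)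
    rw [map_sub, map_mul, lsub_csub_inv, hc, sub_self, map_zero, sub_zero] at h2
    have h3 : f = lsub K (cinv K M p) c * G + (f - lsub K (cinv K M p) c * G) := by ring
    rw [h3]
    exact Ideal.add_mem _ (Ideal.mem_sup_left (Ideal.mul_mem_left _ _
      (Ideal.mem_span_singleton_self G))) (Ideal.mem_sup_right h2)
  · refine sup_le ?_ ?_
    · rw [Ideal.span_singleton_le_iff_mem]
      exact Ideal.mem_span_singleton_self _
    · unfold tailIdeal
      rw [Ideal.span_le]
      rintro _ ⟨k, rfl⟩
      change lsub K (csub K M p) (X (Fin.natAdd (M + 1) k)) ∈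
        Ideal.span {lsub K (csub K M p) G}
      rw [lsub_csub_natAdd]
      exact Ideal.zero_mem _

lemma isSub_secIdeal {G : MvPolynomial (Fin (M + 1 + p)) K} {e : ℕ} (hG : IsHomogeneous G e)
    (hH : Prime (lsub K (csub K M p) G)) : IsSub M 1 (secIdeal M p G) := by
  have hspan : (Ideal.span {lsub K (csub K M p) G}).IsPrime :=
    (Ideal.span_singleton_prime hH.ne_zero).2 hH
  have hprime : (secIdeal M p G).IsPrime := hspan.comap _
  refine ⟨hprime, ?_, ?_, fun h1 => hprime.ne_top ((Ideal.eq_top_iff_one _).2 h1)⟩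
  · have h1 : IsHomIdeal (Ideal.span {lsub K (csub K M p) G}) := by
      refine isHomIdeal_of_minimal (isHomogeneous_lsub _ hG) ⟨⟨hspan, le_rfl⟩, ?_⟩
      intro Q hQ _
      exact hQ.2
    intro f hf i
    change lsub K (csub K M p) (homogeneousComponent i f) ∈
      Ideal.span {lsub K (csub K M p) G}
    rw [← homogeneousComponent_lsub]
    exact h1 _ hf i
  · have h1 := trdeg_comap (K := K) (lsub K (csub K M p)) hspan (fun y => ⟨1, lsub K (cinv K M p) y, by
      rw [map_one]
      exact fun h2 => hspan.ne_top ((Ideal.eq_top_iff_one _).2 h2), by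
      rw [map_one, one_mul, lsub_csub_inv]⟩)
    rw [trdeg_span_prime hH] at h1
    exact h1

/-- the linear forms -/
def cform (K : Type u) [Field K] (M p : ℕ) : Fin (p + 1) → Fin (M + 1 + p) → K :=
  Fin.cons (Pi.single (Fin.castAdd p 0) 1) fun k => Pi.single (Fin.natAdd (M + 1) k) 1

lemma linearIndependent_cform : LinearIndependent K (cform K M p) := by
  set σ : Fin (p + 1) → Fin (M + 1 + p) :=
    Fin.cons (Fin.castAdd p 0) fun k => Fin.natAdd (M + 1) k with hσ
  have h1 : cform K M p = fun k => Pi.single (σ k) (1 : K) := by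
    funext k
    refine Fin.cases rfl (fun k => rfl) k
  have h2 : Function.Injective σ := by
    intro a b hab
    have h3 := congrArg Fin.val hab
    revert h3
    refine Fin.cases ?_ (fun a => ?_) a
    · refine Fin.cases ?_ (fun b => ?_) b
      · intro _
        rfl
      · intro h3
        simp [hσ] at h3
        omega
    · refine Fin.cases ?_ (fun b => ?_) b
      · intro h3
        simp [hσ] at h3
      · intro h3
        simp only [hσ, Fin.cons_succ, Fin.val_natAdd] at h3
        congr 1
        apply Fin.ext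
        omega
  rw [h1]
  exact (Pi.linearIndependent_single_one (Fin (M + 1 + p)) K).comp σ h2

lemma span_cform (G : MvPolynomial (Fin (M + 1 + p)) K) :
    Ideal.span {G} ⊔ Ideal.span (Set.range fun k => lform (cform K M p k)) =
      secIdeal M p G ⊔ Ideal.span {X (Fin.castAdd p 0)} := by
  have h1 : Ideal.span (Set.range fun k => lform (cform K M p k)) =
      tailIdeal K M p ⊔ Ideal.span {(X (Fin.castAdd p 0) : MvPolynomial (Fin (M + 1 + p)) K)} := by
    unfold tailIdeal
    rw [← Ideal.span_union]
    congr 1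
    ext f
    constructor
    · rintro ⟨k, rfl⟩
      refine Fin.cases ?_ (fun k => ?_) k
      · right
        exact lform_single _
      · left
        exact ⟨k, (lform_single _).symm⟩
    · rintro (⟨k, rfl⟩ | h)
      · exact ⟨k.succ, lform_single _⟩
      · rw [Set.mem_singleton_iff] at h
        rw [h]
        exact ⟨0, lform_single _⟩
  rw [h1, secIdeal_eq, sup_assoc]

variable [CharZero K]

omit [CharZero K] in
lemma not_dvd_of_degree {H : MvPolynomial (Fin (M + 1)) K} {e : ℕ}
    (hH : IsHomogeneous H (e + 2)) (hp : Prime H) : ¬ Associated H (X 0) := by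
  rintro ⟨v, hv⟩
  have h1 : IsHomogeneous H 1 := by
    obtain ⟨c, hc, hc'⟩ : ∃ c : K, c ≠ 0 ∧ (v : MvPolynomial (Fin (M + 1)) K) = C c := by
      have h2 := v.isUnit
      rw [MvPolynomial.isUnit_iff_eq_C_of_isReduced] at h2
      obtain ⟨c, hc, hc'⟩ := h2
      exact ⟨c, hc.ne_zero, hc'⟩
    have h3 : H = C c⁻¹ * X 0 := by
      rw [← hv, hc', mul_comm H, ← mul_assoc, ← C_mul, inv_mul_cancel₀ hc, C_1, one_mul]
    rw [h3]
    exact (isHomogeneous_X K 0).C_mul _
  have h2 := hH.inj_right h1 hp.ne_zero
  omega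

/-- **Relations on the complement of an arbitrary hypersurface.** -/
theorem pt_mem_rel_any (hM : 2 ≤ M) {G : MvPolynomial (Fin (M + 1 + p)) K} {e : ℕ}
    (hG : IsHomogeneous G (e + 2)) (hs : Smooth (lsub K (csub K M p) G))
    (h : LinSpan (p + 1) G) {t : ℕ} (ht : t + (p + 1) + 1 = M + 1 + p)
    {l : MvPolynomial (Fin (M + 1 + p)) K} {P : Ideal (MvPolynomial (Fin (M + 1 + p)) K)}
    (hP : IsSub t l P) (hGP : G ∈ P) : pt P ∈ Rel G t l := by
  have hprime : Prime (lsub K (csub K M p) G) :=
    prime_of_smooth hM (e := e + 1) (isHomogeneous_lsub _ hG) hs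
  have hnot := not_dvd_of_degree (isHomogeneous_lsub (csub K M p) hG) hprime
  have hX : Prime (X 0 : MvPolynomial (Fin (M + 1)) K) := MvPolynomial.X_prime
  obtain rfl : M = t + 1 := by omega
  refine pt_mem_rel_of_sect h ht linearIndependent_cform ?_ (isSub_secIdeal hG hprime) ?_
    (isHomogeneous_X K (Fin.castAdd p 0)) ?_ (span_cform G) hP hGP
  · intro h1
    have h2 : Ideal.span (Set.range fun k => lform (cform K (t + 1) p k)) ≤
        (Ideal.span {(X 0 : MvPolynomial (Fin (t + 1 + 1)) K)}).comap
          (lsub K (csub K (t + 1) p)) := by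
      rw [Ideal.span_le]
      rintro _ ⟨k, rfl⟩
      change lsub K (csub K (t + 1) p) (lform (cform K (t + 1) p k)) ∈
        Ideal.span {(X 0 : MvPolynomial (Fin (t + 1 + 1)) K)}
      refine Fin.cases ?_ (fun k => ?_) k
      · have h3 : lform (cform K (t + 1) p 0) = X (Fin.castAdd p 0) := lform_single _
        rw [h3, lsub_csub_castAdd]
        exact Ideal.mem_span_singleton_self _
      · have h3 : lform (cform K (t + 1) p k.succ) = X (Fin.natAdd (t + 1 + 1) k) :=
          lform_single _
        rw [h3, lsub_csub_natAdd]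
        exact Ideal.zero_mem _
    have h3 : X 0 ∣ lsub K (csub K (t + 1) p) G := Ideal.mem_span_singleton.1 (h2 h1)
    exact hnot ((hX.associated_of_dvd hprime h3).symm)
  · exact Ideal.mem_span_singleton_self _
  · intro h1
    have h2 : lsub K (csub K (t + 1) p) (X (Fin.castAdd p 0)) ∈
      Ideal.span {lsub K (csub K (t + 1) p) G} := h1
    rw [lsub_csub_castAdd, Ideal.mem_span_singleton] at h2
    exact hnot (hprime.associated_of_dvd hX h2)

end coord

end Pool.Agent.W5h86.HD
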