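import Pool.Agent.W5h86.HC.Base

set_option autoImplicit false

/-!
# Coordinates in general position with respect to a hypersurface
-/

universe u

namespace Pool.Agent.W5h86.HD

open MvPolynomial Pool.Agent.W5h86.HC

variable {N n : ℕ}

/-- Smoothness at the general point of a family implies smoothness outside of a hypersurface. -/
lemma exists_cert_poly {k : Type u} [Field k] {F : MvPolynomial (Fin N) k} {q : ℕ}
    (A : Matrix (Fin N) (Fin n) (MvPolynomial (Fin q) k))
    (hs : Smooth (lsub k (A.map (algebraMap (MvPolynomial (Fin q) k)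
      (FractionRing (MvPolynomial (Fin q) k)))) F)) :
    ∃ c : MvPolynomial (Fin q) k, c ≠ 0 ∧ ∀ u : Fin q → k, aeval u c ≠ 0 →
      Smooth (lsub k (A.map (aeval u)) F) := by
  classical
  choose δ hδ m hm using exists_cert (FractionRing (MvPolynomial (Fin q) k)) A hs
  refine ⟨∏ j, δ j, Finset.prod_ne_zero_iff.2 fun j _ => hδ j, fun u hu => ?_⟩
  rw [map_prod] at hu
  exact smooth_of_cert A (aeval u) fun j =>
    ⟨δ j, Finset.prod_ne_zero_iff.1 hu j (Finset.mem_univ _), m j, hm j⟩

lemma smooth_smul {K κ : Type u} [Field K] [Field κ] [Algebra K κ] {F : MvPolynomial (Fin N) K}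
    {d : ℕ} (hF : IsHomogeneous F (d + 1)) {B : Matrix (Fin N) (Fin n) κ}
    (h : Smooth (lsub K B F)) {c : κ} (hc : c ≠ 0) : Smooth (lsub K (c • B) F) := by
  rw [smooth_lsub_iff] at h ⊢
  intro L _ _ _ _ b hb h0
  have h1 : (fun i => ∑ j, algebraMap κ L ((c • B) i j) * b j) =
      fun i => algebraMap κ L c * ∑ j, algebraMap κ L (B i j) * b j := by
    funext i
    rw [Finset.mul_sum]
    refine Finset.sum_congr rfl fun j _ => ?_
    rw [Matrix.smul_apply, smul_eq_mul, map_mul]
    ring
  have hc' : algebraMap κ L c ≠ 0 := by
    rw [Ne, map_eq_zero]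
    exact hc
  rw [h1, aeval_smul_point hF] at h0
  obtain ⟨j, hj⟩ := h L b hb ((mul_eq_zero.1 h0).resolve_left (pow_ne_zero _ hc'))
  refine ⟨j, ?_⟩
  rw [h1]
  have h2 : ∑ i, algebraMap κ L ((c • B) i j) *
      aeval (fun i => algebraMap κ L c * ∑ j, algebraMap κ L (B i j) * b j) (pderiv i F) =
        algebraMap κ L c ^ (d + 1) * ∑ i, algebraMap κ L (B i j) *
          aeval (fun i => ∑ j, algebraMap κ L (B i j) * b j) (pderiv i F) := by
    rw [Finset.mul_sum]
    refine Finset.sum_congr rfl fun i _ => ?_
    rw [aeval_smul_point (isHomogeneous_pderiv hF i), Matrix.smul_apply, smul_eq_mul, map_mul]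
    ring
  rw [h2]
  exact mul_ne_zero (pow_ne_zero _ hc') hj

/-- The coordinate subspaces. -/
abbrev CoordSub (N : ℕ) : Type := Σ n : Fin (N + 1), (Fin n.val ↪ Fin N)

/-- **Coordinates in general position.** -/
theorem exists_general_coord {k : Type u} [Field k] [CharZero k] {F : MvPolynomial (Fin N) k}
    {d : ℕ} (hF : IsHomogeneous F (d + 1)) (hs : Smooth F) :
    ∃ g : Matrix (Fin N) (Fin N) k, g.det ≠ 0 ∧ ∀ (n : ℕ) (e : Fin n ↪ Fin N),
      Smooth (lsub k (g.submatrix id e) F) := by
  classical
  have key : ∀ T : Finset (CoordSub N), ∃ g : Matrix (Fin N) (Fin N) k, g.det ≠ 0 ∧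
      ∀ e ∈ T, Smooth (lsub k (g.submatrix id e.2) F) := by
    intro T
    induction T using Finset.induction_on with
    | empty => exact ⟨1, by simp, fun e he => absurd he (Finset.notMem_empty e)⟩
    | insert e₀ T he₀ ih =>
      obtain ⟨g, hg, hgT⟩ := ih
      obtain ⟨A, A', -, hA⟩ := hasSec_of_smooth (n := e₀.1.val) hs (by omega)
      set h : Matrix (Fin N) (Fin N) k := fun i => Function.extend e₀.2 (A i) 0 with hh
      have hhA : h.submatrix id e₀.2 = A := by
        ext i j
        rw [Matrix.submatrix_apply, hh]
        exact e₀.2.injective.extend_apply _ _ _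
      -- the family
      set R := MvPolynomial (Fin 1) k with hR
      set U := FractionRing R with hU
      set θ : U := algebraMap R U (X 0) with hθ
      have hθt : Transcendental k θ := by
        rw [hθ, transcendental_algebraMap_iff (IsFractionRing.injective R U)]
        have h1 := (MvPolynomial.algebraicIndependent_X (Fin 1) k).transcendental 0
        exact h1
      have hθ0 : θ ≠ 0 := by
        rintro h1
        rw [h1] at hθt
        exact hθt isAlgebraic_zero
      have hθt' : Transcendental k θ⁻¹ := by
        intro h1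
        apply hθt
        have h2 := h1.inv
        rw [inv_inv] at h2
        exact h2
      set B : Matrix (Fin N) (Fin N) R := g.map (algebraMap k R) + (X 0 : R) • h.map (algebraMap k R)
        with hB
      have hBm : ∀ (n : ℕ) (e : Fin n ↪ Fin N) i j,
          ((B.submatrix id e).map (algebraMap R U)) i j = algebraMap k U (g i (e j)) +
            θ * algebraMap k U (h i (e j)) := by
        intro n e i j
        rw [Matrix.map_apply, Matrix.submatrix_apply, hB, Matrix.add_apply, Matrix.smul_apply,
          Matrix.map_apply, Matrix.map_apply, map_add, smul_eq_mul, map_mul,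
          IsScalarTower.algebraMap_apply k R U, IsScalarTower.algebraMap_apply k R U]
        rfl
      have hcert : ∀ e ∈ insert e₀ T, ∃ c : R, c ≠ 0 ∧ ∀ u : Fin 1 → k, aeval u c ≠ 0 →
          Smooth (lsub k ((B.submatrix id e.2).map (aeval u)) F) := by
        intro e he
        apply exists_cert_poly
        rcases Finset.mem_insert.1 he with rfl | he
        · have h1 : (B.submatrix id e.2).map (algebraMap R U) = θ • Matrix.of (fun i j =>
              algebraMap k U (A i j) + θ⁻¹ * algebraMap k U (g i (e.2 j))) := by
            ext i j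
            rw [hBm, Matrix.smul_apply, Matrix.of_apply, smul_eq_mul, mul_add, ← mul_assoc,
              mul_inv_cancel₀ hθ0, one_mul, add_comm]
            congr 3
            exact congrFun (congrFun hhA i) j
          rw [h1]
          refine smooth_smul hF ?_ hθ0
          exact smooth_deform hF A (g.submatrix id e.2) hA hθt' _ fun i j => rfl
        · exact smooth_deform hF (g.submatrix id e.2) (h.submatrix id e.2) (hgT e he) hθt _
            fun i j => hBm _ e.2 i j
      choose! c hc hc' using hcert
      have hdet : B.det ≠ 0 := by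
        intro h1
        apply hg
        have h2 := congrArg (aeval (fun _ : Fin 1 => (0 : k))) h1
        rw [map_zero, AlgHom.map_det] at h2
        rw [← h2]
        congr 1
        ext i j
        simp only [hB, AlgHom.mapMatrix_apply, Matrix.map_apply, Matrix.add_apply,
          Matrix.smul_apply, smul_eq_mul, map_add, map_mul, aeval_X, zero_mul, add_zero]
        exact ((aeval (fun _ : Fin 1 => (0 : k))).commutes (g i j)).symm
      have hne : B.det * ∏ e ∈ insert e₀ T, c e ≠ 0 :=
        mul_ne_zero hdet (Finset.prod_ne_zero_iff.2 hc)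
      obtain ⟨u, hu⟩ : ∃ u : Fin 1 → k, eval u (B.det * ∏ e ∈ insert e₀ T, c e) ≠ 0 := by
        by_contra hcon
        push Not at hcon
        apply hne
        apply MvPolynomial.funext
        intro x
        rw [hcon, map_zero]
      rw [map_mul, map_prod] at hu
      have hev : ∀ f : R, aeval u f = eval u f := fun f => by
        rw [aeval_eq_eval]
      refine ⟨B.map (aeval u), ?_, fun e he => ?_⟩
      · have h1 := left_ne_zero_of_mul hu
        rw [← hev, AlgHom.map_det] at h1
        exact h1
      · have h1 := hc' e he u (by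
          rw [hev]
          exact Finset.prod_ne_zero_iff.1 (right_ne_zero_of_mul hu) e he)
        exact h1
  obtain ⟨g, hg, hgT⟩ := key Finset.univ
  refine ⟨g, hg, fun n e => ?_⟩
  have hn : n ≤ N := by
    have := Fintype.card_le_of_embedding e
    simpa using this
  exact hgT ⟨⟨n, by omega⟩, e⟩ (Finset.mem_univ _)

end Pool.Agent.W5h86.HD
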