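import Pool.Agent.W5h86.HD.Ext
import Pool.Agent.W5h86.HD.Gen

set_option autoImplicit false

/-!
# The cover given by the powers of the coordinates
-/

universe u

namespace Pool.Agent.W5h86.HD

open MvPolynomial Pool.Agent.W5h86.HC

lemma isHomIdeal_span {K : Type u} [Field K] {N : ℕ} {s : Set (MvPolynomial (Fin N) K)}
    (hs : ∀ x ∈ s, ∀ i, homogeneousComponent i x ∈ Ideal.span s) : IsHomIdeal (Ideal.span s) := by
  intro f hf i
  induction hf using Submodule.span_induction generalizing i with
  | mem x hx => exact hs x hx i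
  | zero =>
    rw [map_zero]
    exact Ideal.zero_mem _
  | add x y _ _ hx hy =>
    rw [map_add]
    exact Ideal.add_mem _ (hx i) (hy i)
  | smul a x _ hx =>
    rw [smul_eq_mul, ← sum_homogeneousComponent a, Finset.sum_mul, map_sum]
    refine Ideal.sum_mem _ fun j _ => ?_
    rcases Nat.lt_or_ge i j with hij | hij
    · have h1 : homogeneousComponent i (homogeneousComponent j a * x) = 0 := by
        rw [← sum_homogeneousComponent x, Finset.mul_sum, map_sum, Finset.sum_eq_zero]
        intro k _
        rw [homogeneousComponent_of_mem ((homogeneousComponent_isHomogeneous j a).mul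
          (homogeneousComponent_isHomogeneous k x)), if_neg (by omega)]
      rw [h1]
      exact Ideal.zero_mem _
    · obtain ⟨k, rfl⟩ := Nat.exists_eq_add_of_le hij
      rw [homogeneousComponent_mul_of_isHomogeneous (homogeneousComponent_isHomogeneous j a)]
      exact Ideal.mul_mem_left _ _ (hx k)

section

variable {K L : Type u} [Field K] [Field L] [Algebra K L] {N : ℕ} (m : ℕ)

/-- The substitution `x i ↦ x i ^ m`. -/
noncomputable def phi (K L : Type u) [Field K] [Field L] [Algebra K L] (N m : ℕ) :
    MvPolynomial (Fin N) K →ₐ[K] MvPolynomial (Fin N) L :=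
  aeval fun i => X i ^ m

lemma phi_X (i : Fin N) : phi K L N m (X i) = X i ^ m := aeval_X _ _

lemma phi_C (a : K) : phi K L N m (C a) = C (algebraMap K L a) := by
  unfold phi
  rw [aeval_C]
  rfl

lemma phi_monomial (a : Fin N →₀ ℕ) (c : K) :
    phi K L N m (monomial a c) = monomial (m • a) (algebraMap K L c) := by
  unfold phi
  rw [aeval_monomial, monomial_eq]
  change C (algebraMap K L c) * _ = _
  congr 1
  rw [Finsupp.prod_fintype _ _ (fun i => by simp), Finsupp.prod_fintype _ _ (fun i => by simp)]
  refine Finset.prod_congr rfl fun i _ => ?_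
  rw [← pow_mul, Finsupp.smul_apply, smul_eq_mul]

lemma isHomogeneous_phi {f : MvPolynomial (Fin N) K} {e : ℕ} (hf : IsHomogeneous f e) :
    IsHomogeneous (phi K L N m f) (m * e) :=
  hf.aeval (n := m) _ fun i => by
    have h1 := (isHomogeneous_X L i).pow m
    rw [one_mul] at h1
    exact h1

lemma phi_homogeneousComponent {m : ℕ} (hm : 0 < m) (f : MvPolynomial (Fin N) K) (i : ℕ) :
    homogeneousComponent (m * i) (phi K L N m f) = phi K L N m (homogeneousComponent i f) := by
  conv_lhs => rw [← sum_homogeneousComponent f]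
  rw [map_sum, map_sum]
  have h2 : ∀ j, homogeneousComponent (m * i) (phi K L N m (homogeneousComponent j f)) =
      if j = i then phi K L N m (homogeneousComponent i f) else 0 := by
    intro j
    rw [homogeneousComponent_of_mem
      (isHomogeneous_phi m (homogeneousComponent_isHomogeneous j f))]
    by_cases hj : j = i
    · subst hj
      rw [if_pos rfl, if_pos rfl]
    · rw [if_neg hj, if_neg]
      intro h
      exact hj (Nat.eq_of_mul_eq_mul_left hm h).symm
  rw [Finset.sum_congr rfl fun j _ => h2 j, Finset.sum_ite_eq']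
  split_ifs with h3
  · rfl
  · rw [homogeneousComponent_eq_zero _ _ (by simpa using h3), map_zero]

lemma phi_homogeneousComponent' {m : ℕ} (f : MvPolynomial (Fin N) K) {k : ℕ} (hk : ¬ m ∣ k) :
    homogeneousComponent k (phi K L N m f) = 0 := by
  conv_lhs => rw [← sum_homogeneousComponent f]
  rw [map_sum, map_sum, Finset.sum_eq_zero]
  intro j _
  rw [homogeneousComponent_of_mem (isHomogeneous_phi m (homogeneousComponent_isHomogeneous j f)),
    if_neg]
  rintro rfl
  exact hk (dvd_mul_right m j)

/-- The multiplication of the coordinates by constants. -/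
noncomputable def scale (L : Type u) [Field L] {N : ℕ} (ζ : Fin N → L) :
    MvPolynomial (Fin N) L →ₐ[L] MvPolynomial (Fin N) L :=
  aeval fun i => C (ζ i) * X i

lemma scale_scale (ζ ζ' : Fin N → L) (f : MvPolynomial (Fin N) L) :
    scale L ζ (scale L ζ' f) = scale L (ζ * ζ') f := by
  have h1 : (scale L ζ).comp (scale L ζ') = scale L (ζ * ζ') := by
    apply MvPolynomial.algHom_ext
    intro i
    unfold scale
    simp only [AlgHom.comp_apply, aeval_X, map_mul, Pi.mul_apply]
    have h2 : aeval (fun i => C (ζ i) * X i) (C (ζ' i) : MvPolynomial (Fin N) L) = C (ζ' i) := by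
      rw [aeval_C]
      rfl
    rw [h2]
    ring
  rw [← h1]
  rfl

lemma scale_one (f : MvPolynomial (Fin N) L) : scale L 1 f = f := by
  have h1 : scale L (1 : Fin N → L) = AlgHom.id L _ := by
    apply MvPolynomial.algHom_ext
    intro i
    unfold scale
    simp
  rw [h1]
  rfl

lemma scale_monomial (ζ : Fin N → L) (a : Fin N →₀ ℕ) (c : L) :
    scale L ζ (monomial a c) = monomial a (c * ∏ i, ζ i ^ a i) := by
  unfold scale
  rw [aeval_monomial, monomial_eq]
  change C c * _ = _
  rw [C_mul, mul_assoc, map_prod, Finsupp.prod_fintype _ _ (fun i => by simp),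
    Finsupp.prod_fintype _ _ (fun i => by simp), ← Finset.prod_mul_distrib]
  congr 1
  refine Finset.prod_congr rfl fun i _ => ?_
  rw [mul_pow, map_pow]

lemma coeff_scale (ζ : Fin N → L) (f : MvPolynomial (Fin N) L) (a : Fin N →₀ ℕ) :
    coeff a (scale L ζ f) = coeff a f * ∏ i, ζ i ^ a i := by
  induction f using MvPolynomial.induction_on' with
  | monomial b c =>
    rw [scale_monomial, coeff_monomial, coeff_monomial]
    split_ifs with h
    · rw [h]
    · rw [zero_mul]
  | add p q hp hq => rw [map_add, coeff_add, coeff_add, hp, hq, add_mul]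

lemma isHomogeneous_scale (ζ : Fin N → L) {f : MvPolynomial (Fin N) L} {e : ℕ}
    (hf : IsHomogeneous f e) : IsHomogeneous (scale L ζ f) e := by
  intro a ha
  rw [coeff_scale] at ha
  exact hf (left_ne_zero_of_mul ha)

lemma scale_phi {m : ℕ} {ζ : Fin N → L} (hζ : ∀ i, ζ i ^ m = 1) (f : MvPolynomial (Fin N) K) :
    scale L ζ (phi K L N m f) = phi K L N m f := by
  have h1 : ((scale L ζ).restrictScalars K).comp (phi K L N m) = phi K L N m := by
    apply MvPolynomial.algHom_ext
    intro i
    rw [AlgHom.comp_apply, phi_X]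
    change scale L ζ (X i ^ m) = _
    unfold scale
    rw [map_pow, aeval_X, mul_pow, ← C_pow, hζ, C_1, one_mul]
  exact congrArg (fun F => F f) h1

/-- The algebra structure defined by `phi`. -/
noncomputable abbrev phiAlg (K L : Type u) [Field K] [Field L] [Algebra K L] (N m : ℕ) :
    Algebra (MvPolynomial (Fin N) K) (MvPolynomial (Fin N) L) :=
  (phi K L N m).toRingHom.toAlgebra

end

end Pool.Agent.W5h86.HD
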