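import Pool.Agent.W5h86.HD.Quot2

set_option autoImplicit false

/-!
# Multiplicities and flat homomorphisms
-/

universe u v w x

namespace Pool.Agent.W5h86.HD

open Pool.Agent.W5h86.HC MvPolynomial

/-- Multiplicities under flat homomorphisms. -/
theorem mult_map_flat {S : Type u} {R : Type v} [CommRing S] [CommRing R] [Algebra S R]
    [Module.Flat S R] {P' : Ideal R} (hP' : P'.IsPrime) (I : Ideal S) :
    mult (I.map (algebraMap S R)) P' = mult I (P'.comap (algebraMap S R)) *
      mult ((P'.comap (algebraMap S R)).map (algebraMap S R)) P' := by
  set P := P'.comap (algebraMap S R) with hP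
  have hPp : P.IsPrime := hP'.comap _
  let f := Localization.localRingHom P P' (algebraMap S R) rfl
  letI : Algebra (Localization.AtPrime P) (Localization.AtPrime P') := f.toAlgebra
  have hf : ∀ x, algebraMap (Localization.AtPrime P) (Localization.AtPrime P')
      (algebraMap S _ x) = algebraMap R _ (algebraMap S R x) := fun x =>
    Localization.localRingHom_to_map _ _ _ _ _
  have hloc : IsLocalHom (algebraMap (Localization.AtPrime P) (Localization.AtPrime P')) :=
    Localization.isLocalHom_localRingHom P P' _ rfl
  have hflat : Module.Flat (Localization.AtPrime P) (Localization.AtPrime P') :=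
    RingHom.Flat.localRingHom (f := algebraMap S R) (RingHom.flat_algebraMap_iff.2 inferInstance)
      P' P rfl
  have hmap : ∀ J : Ideal S, (J.map (algebraMap S (Localization.AtPrime P))).map
      (algebraMap (Localization.AtPrime P) (Localization.AtPrime P')) =
        (J.map (algebraMap S R)).map (algebraMap R (Localization.AtPrime P')) := by
    intro J
    rw [Ideal.map_map, Ideal.map_map]
    congr 1
    exact RingHom.ext hf
  have h := IsLocalRing.length_baseChange (Localization.AtPrime P) (Localization.AtPrime P')
    (Localization.AtPrime P ⧸ I.map (algebraMap S (Localization.AtPrime P)))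
  rw [← (Algebra.TensorProduct.quotIdealMapEquivTensorQuot (Localization.AtPrime P')
    (I.map (algebraMap S (Localization.AtPrime P)))).toLinearEquiv.length_eq, hmap,
    ← Localization.AtPrime.map_eq_maximalIdeal, hmap] at h
  rw [mult_eq, mult_eq, mult_eq, h, ENat.toNat_mul]

end Pool.Agent.W5h86.HD
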