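import Pool.Agent.W5h86.HC.Base

set_option autoImplicit false

/-!
# Smooth hypersurfaces are irreducible and reduced
-/

universe u

namespace Pool.Agent.W5h86.HD

open MvPolynomial Pool.Agent.W5h86.HC

variable {K : Type u} [Field K] [CharZero K] {M : ℕ}

theorem prime_of_smooth (hM : 2 ≤ M) {H : MvPolynomial (Fin (M + 1)) K} {e : ℕ}
    (hH : IsHomogeneous H (e + 1)) (hs : Smooth H) : Prime H := by
  have hsec : HasSec 3 H := hasSec_of_smooth hs (by omega)
  have hH0 : H ≠ 0 := ne_zero_of_hasSec hsec
  obtain ⟨f, hf, hfH⟩ := UniqueFactorizationMonoid.exists_prime_factors H hH0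
  have hcc : constantCoeff H = 0 := by
    by_contra h1
    have h2 := hH (d := 0) h1
    simp at h2
  have hfne : f ≠ 0 := by
    rintro rfl
    rw [Multiset.prod_zero] at hfH
    have h1 : IsUnit H := associated_one_iff_isUnit.1 hfH.symm
    have h2 := h1.map (constantCoeff (σ := Fin (M + 1)) (R := K))
    rw [hcc] at h2
    exact not_isUnit_zero h2
  obtain ⟨p, hp⟩ := Multiset.exists_mem_of_ne_zero hfne
  have hpp := hf p hp
  have hdvd : ∀ b ∈ f, b ∣ H := fun b hb => (Multiset.dvd_prod hb).trans hfH.dvd
  have hsub : ∀ b ∈ f, IsSub M 1 (Ideal.span {b}) := by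
    intro b hb
    have hbp := hf b hb
    have hspan : (Ideal.span {b}).IsPrime := (Ideal.span_singleton_prime hbp.ne_zero).2 hbp
    refine ⟨hspan, ?_, trdeg_span_prime hbp, fun h1 =>
      hspan.ne_top ((Ideal.eq_top_iff_one _).2 h1)⟩
    have hHb : H ∈ Ideal.span {b} := Ideal.mem_span_singleton.2 (hdvd b hb)
    refine isHomIdeal_of_minimal hH ⟨⟨hspan, ?_⟩, ?_⟩
    · rw [Ideal.span_singleton_le_iff_mem]
      exact hHb
    · rintro Q ⟨hQ, hHQ⟩ hle
      obtain ⟨k, hk⟩ := exists_trdeg_eq (K := K) Q
      have h1 : k < M + 1 := by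
        refine trdeg_quot_lt (K := K) Ideal.isPrime_bot hQ (lt_of_le_of_ne bot_le fun h => ?_)
          trdeg_bot hk
        rw [← h, Ideal.span_singleton_le_iff_mem, Ideal.mem_bot] at hHQ
        exact hH0 hHQ
      by_contra hcon
      have h2 := trdeg_quot_lt (K := K) hQ hspan (lt_of_le_of_ne hle fun h => hcon h.symm.le) hk
        (trdeg_span_prime hbp)
      omega
  have hass : ∀ b ∈ f, Associated b p := by
    intro b hb
    have h1 := component_unique hsec (hsub b hb) (hsub p hp)
      (Ideal.mem_span_singleton.2 (hdvd b hb)) (Ideal.mem_span_singleton.2 (hdvd p hp))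
    exact Ideal.span_singleton_eq_span_singleton.1 h1
  obtain ⟨f', rfl⟩ := Multiset.exists_cons_of_mem hp
  rw [Multiset.prod_cons] at hfH
  by_cases hf' : f' = 0
  · rw [hf', Multiset.prod_zero, mul_one] at hfH
    exact hfH.prime hpp
  · exfalso
    obtain ⟨b, hb⟩ := Multiset.exists_mem_of_ne_zero hf'
    have hpb : p ∣ b := (hass b (Multiset.mem_cons_of_mem hb)).symm.dvd
    obtain ⟨c, hc⟩ : p * p ∣ H := by
      refine (mul_dvd_mul_left p (hpb.trans (Multiset.dvd_prod hb))).trans hfH.dvd
    have hprime := (hsub p hp).prime
    -- the generic point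
    have hx : (fun i => cls (Ideal.span {p}) (X i)) ≠ 0 := by
      intro h1
      have h2 : ∀ i, (X i : MvPolynomial (Fin (M + 1)) K) ∈ Ideal.span {p} := fun i =>
        (cls_eq_zero _).1 (congrFun h1 i)
      have h3 : Ideal.span {p} = RingHom.ker (constantCoeff (σ := Fin (M + 1)) (R := K)) := by
        apply le_antisymm
        · intro y hy
          rw [RingHom.mem_ker]
          exact constantCoeff_eq_zero_of_mem hprime (hsub p hp).hom hy
        · intro y hy
          rw [RingHom.mem_ker] at hy
          have h4 : y - C (constantCoeff y) ∈ Ideal.span {p} := by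
            clear hy
            induction y using MvPolynomial.induction_on with
            | C a =>
              rw [constantCoeff_C, sub_self]
              exact Ideal.zero_mem _
            | add a b ha hb =>
              rw [map_add, map_add]
              have h5 : a + b - (C (constantCoeff a) + C (constantCoeff b)) =
                (a - C (constantCoeff a)) + (b - C (constantCoeff b)) := by ring
              rw [h5]
              exact Ideal.add_mem _ ha hb
            | mul_X a i _ =>
              rw [map_mul, constantCoeff_X, mul_zero, map_zero, sub_zero]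
              exact Ideal.mul_mem_left _ _ (h2 i)
          rw [hy, map_zero, sub_zero] at h4
          exact h4
      have h4 := (hsub p hp).trdeg
      have h5 : Algebra.trdeg K (MvPolynomial (Fin (M + 1)) K ⧸
          RingHom.ker (constantCoeff (σ := Fin (M + 1)) (R := K))) = (0 : ℕ) := by
        let ψ : MvPolynomial (Fin (M + 1)) K →ₐ[K] K := aeval 0
        have h6 : RingHom.ker (constantCoeff (σ := Fin (M + 1)) (R := K)) = RingHom.ker ψ := by
          ext y
          rw [RingHom.mem_ker, RingHom.mem_ker]
          change _ ↔ aeval 0 y = 0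
          rw [aeval_zero]
          simp
        rw [h6]
        have h7 := (Ideal.quotientKerAlgEquivOfSurjective (f := ψ) (fun a => ⟨C a, by
          change aeval 0 (C a) = a
          rw [aeval_C]
          rfl⟩)).trdeg_eq
        rw [h7]
        exact trdeg_self_eq
      rw [h3, h5] at h4
      have h6 : (0 : ℕ) = M := by exact_mod_cast h4
      omega
    have haev : ∀ y, aeval (fun i => cls (Ideal.span {p}) (X i)) y = cls (Ideal.span {p}) y := by
      intro y
      have h1 : (aeval fun i => cls (Ideal.span {p}) (X i)) = cls (Ideal.span {p}) := by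
        apply MvPolynomial.algHom_ext
        intro i
        rw [aeval_X]
      rw [h1]
    obtain ⟨i, hi⟩ := hs (FF (Ideal.span {p})) _ hx (by
      rw [haev, cls_eq_zero]
      exact Ideal.mem_span_singleton.2 (hdvd p hp))
    apply hi
    rw [haev, cls_eq_zero, hc, pderiv_mul, pderiv_mul]
    refine Ideal.add_mem _ (Ideal.mul_mem_right _ _ (Ideal.add_mem _ ?_ ?_)) ?_
    · exact Ideal.mul_mem_left _ _ (Ideal.mem_span_singleton_self p)
    · exact Ideal.mul_mem_right _ _ (Ideal.mem_span_singleton_self p)
    · exact Ideal.mul_mem_right _ _ (Ideal.mul_mem_right _ _ (Ideal.mem_span_singleton_self p))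

end Pool.Agent.W5h86.HD
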