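import Pool.Agent.W5h86.HC.Mult

set_option autoImplicit false

/-!
# Lengths of localized modules
-/

universe u v w x

namespace Pool.Agent.W5h86.HD

open Pool.Agent.W5h86.HC

section

variable {S : Type u} [CommRing S]

open scoped Classical in
/-- The length of the localization at `P` of a module (`0` if `P` is not a prime ideal). -/
noncomputable def len (P : Ideal S) (N : Type v) [AddCommGroup N] [Module S N] : ℕ∞ :=
  if h : P.IsPrime then
    (haveI := h; Module.length (Localization.AtPrime P) (LocalizedModule P.primeCompl N))
  else 0

variable {P : Ideal S}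

lemma len_eq (P : Ideal S) [h : P.IsPrime] (N : Type v) [AddCommGroup N] [Module S N] :
    len P N = Module.length (Localization.AtPrime P) (LocalizedModule P.primeCompl N) := by
  unfold len
  rw [dif_pos h]

lemma len_not (h : ¬ P.IsPrime) (N : Type v) [AddCommGroup N] [Module S N] : len P N = 0 := by
  unfold len
  rw [dif_neg h]

variable {N₁ : Type v} {N₂ : Type w} {N₃ : Type x} [AddCommGroup N₁] [AddCommGroup N₂]
  [AddCommGroup N₃] [Module S N₁] [Module S N₂] [Module S N₃]

/-- The induced homomorphism. -/
noncomputable def lmap (P : Ideal S) [P.IsPrime] (f : N₁ →ₗ[S] N₂) :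
    LocalizedModule P.primeCompl N₁ →ₗ[Localization.AtPrime P] LocalizedModule P.primeCompl N₂ :=
  LinearMap.extendScalarsOfIsLocalization P.primeCompl (Localization.AtPrime P)
    (IsLocalizedModule.map P.primeCompl (LocalizedModule.mkLinearMap P.primeCompl N₁)
      (LocalizedModule.mkLinearMap P.primeCompl N₂) f)

lemma len_exact (f : N₁ →ₗ[S] N₂) (g : N₂ →ₗ[S] N₃) (hf : Function.Injective f)
    (hg : Function.Surjective g) (hfg : Function.Exact f g) :
    len P N₂ = len P N₁ + len P N₃ := by
  by_cases hP : P.IsPrime
  · rw [len_eq, len_eq, len_eq]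
    refine Module.length_eq_add_of_exact (lmap P f) (lmap P g) ?_ ?_ ?_
    · exact IsLocalizedModule.map_injective P.primeCompl _ _ f hf
    · exact IsLocalizedModule.map_surjective P.primeCompl _ _ g hg
    · exact LocalizedModule.map_exact P.primeCompl f g hfg
  · rw [len_not hP, len_not hP, len_not hP, add_zero]

lemma len_sub [Subsingleton N₁] : len P N₁ = 0 := by
  by_cases hP : P.IsPrime
  · rw [len_eq, Module.length_eq_zero_iff]
    refine ⟨fun a b => ?_⟩
    induction a using LocalizedModule.induction_on with
    | _ m s =>
      induction b using LocalizedModule.induction_on with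
      | _ m' s' =>
        rw [Subsingleton.elim m 0, Subsingleton.elim m' 0, LocalizedModule.zero_mk,
          LocalizedModule.zero_mk]
  · exact len_not hP _

lemma len_equiv (e : N₁ ≃ₗ[S] N₂) : len P N₁ = len P N₂ := by
  have h := len_exact (P := P) (e : N₁ →ₗ[S] N₂) (0 : N₂ →ₗ[S] PUnit.{1}) e.injective
    (fun x => ⟨0, Subsingleton.elim _ _⟩) (by
      intro y
      constructor
      · intro _
        exact ⟨e.symm y, e.apply_symm_apply y⟩
      · intro _
        rfl)
  rw [h, len_sub (N₁ := PUnit.{1}), add_zero]

lemma len_submodule (N : Submodule S N₁) : len P N₁ = len P N + len P (N₁ ⧸ N) :=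
  len_exact N.subtype N.mkQ N.subtype_injective N.mkQ_surjective
    (LinearMap.exact_subtype_mkQ N)

lemma len_le_of_surjective (g : N₁ →ₗ[S] N₂) (hg : Function.Surjective g) :
    len P N₂ ≤ len P N₁ := by
  rw [len_exact (P := P) (LinearMap.ker g).subtype g (Submodule.subtype_injective _) hg
    (LinearMap.exact_subtype_ker_map g)]
  exact le_add_self

lemma len_le_of_injective (f : N₁ →ₗ[S] N₂) (hf : Function.Injective f) :
    len P N₁ ≤ len P N₂ := by
  rw [len_exact (P := P) f (LinearMap.range f).mkQ hf (Submodule.mkQ_surjective _)
    (LinearMap.exact_map_mkQ_range f)]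
  exact le_self_add

/-- Modules killed by an element outside of `P`. -/
lemma len_eq_zero {s : S} (hs : s ∉ P) (h : ∀ x : N₁, s • x = 0) : len P N₁ = 0 := by
  by_cases hP : P.IsPrime
  · rw [len_eq, Module.length_eq_zero_iff]
    have key : ∀ a : LocalizedModule P.primeCompl N₁, a = 0 := by
      intro a
      induction a using LocalizedModule.induction_on with
      | _ m t =>
        rw [← LocalizedModule.zero_mk t, LocalizedModule.mk_eq]
        refine ⟨⟨s, hs⟩, ?_⟩
        rw [smul_zero, smul_zero]
        change s • (t • m) = 0
        exact h _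
    exact ⟨fun a b => by rw [key a, key b]⟩
  · exact len_not hP _

/-- The length of a quotient of the ring. -/
lemma mult_eq_len (I : Ideal S) : mult I P = (len P (S ⧸ I)).toNat := by
  by_cases hP : P.IsPrime
  · rw [mult_eq, len_eq]
    congr 1
    have h1 : IsLocalizedModule P.primeCompl
        (Submodule.toLocalizedQuotient' (Localization.AtPrime P) P.primeCompl
          (Algebra.linearMap S (Localization.AtPrime P)) I) := inferInstance
    have e1 : LocalizedModule P.primeCompl (S ⧸ I) ≃ₗ[S]
        (Localization.AtPrime P ⧸ Submodule.localized' (Localization.AtPrime P) P.primeCompl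
          (Algebra.linearMap S (Localization.AtPrime P)) I) :=
      IsLocalizedModule.iso P.primeCompl (Submodule.toLocalizedQuotient' (Localization.AtPrime P)
        P.primeCompl (Algebra.linearMap S (Localization.AtPrime P)) I)
    have e2 := LinearEquiv.extendScalarsOfIsLocalization P.primeCompl (Localization.AtPrime P) e1
    rw [e2.length_eq]
    have h2 := Ideal.localized'_eq_map (Localization.AtPrime P) P.primeCompl I
    rw [h2]
  · unfold mult
    rw [dif_neg hP, len_not hP]
    rfl

end

end Pool.Agent.W5h86.HD
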