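import Pool.Agent.W5h86.HD.Len

set_option autoImplicit false

/-!
# Lengths of localized modules over a finite extension
-/

universe u v w x

namespace Pool.Agent.W5h86.HD

open Pool.Agent.W5h86.HC

section one

variable {S : Type u} [CommRing S] {P : Ideal S}

lemma len_self (hP : P.IsPrime) : len P (S ⧸ P) = 1 := by
  have h1 := mult_self hP
  rw [mult_eq_len] at h1
  have h2 := (ENat.toNat_eq_iff (one_ne_zero)).1 h1
  exact_mod_cast h2

lemma exists_smul_eq_zero_of_len (hP : P.IsPrime) {N : Type v} [AddCommGroup N] [Module S N]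
    (h : len P N = 0) (x : N) : ∃ t, t ∉ P ∧ t • x = 0 := by
  rw [len_eq, Module.length_eq_zero_iff] at h
  have h1 : LocalizedModule.mk x (1 : P.primeCompl) = LocalizedModule.mk (0 : N) 1 :=
    Subsingleton.elim _ _
  rw [LocalizedModule.mk_eq] at h1
  obtain ⟨⟨t, ht⟩, h2⟩ := h1
  rw [smul_zero, smul_zero, one_smul] at h2
  exact ⟨t, ht, h2⟩

/-- Modules of infinite length. -/
lemma len_eq_top (hP : P.IsPrime) {N : Type v} [AddCommGroup N] [Module S N] [Module.Finite S N]
    {s : S} (hs : s ∈ P) (hinj : ∀ x : N, s • x = 0 → x = 0) (h0 : len P N ≠ 0) :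
    len P N = ⊤ := by
  by_contra htop
  set f : N →ₗ[S] N := LinearMap.lsmul S N s with hf
  have hfi : Function.Injective f := by
    rw [injective_iff_map_eq_zero]
    exact hinj
  have h1 : len P N = len P N + len P (N ⧸ LinearMap.range f) :=
    len_exact f (LinearMap.range f).mkQ hfi (Submodule.mkQ_surjective _)
      (LinearMap.exact_map_mkQ_range f)
  have h2 : len P (N ⧸ LinearMap.range f) = 0 := by
    have h3 : len P N + 0 = len P N + len P (N ⧸ LinearMap.range f) := by rw [add_zero]; exact h1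
    exact (ENat.add_right_injective_of_ne_top htop h3).symm
  have h3 : (⊤ : Submodule (Localization.AtPrime P) (LocalizedModule P.primeCompl N)) ≤
      (IsLocalRing.maximalIdeal (Localization.AtPrime P)) • ⊤ := by
    rintro a -
    induction a using LocalizedModule.induction_on with
    | _ m t =>
      obtain ⟨t', ht', h4⟩ := exists_smul_eq_zero_of_len hP h2 ((LinearMap.range f).mkQ m)
      rw [← map_smul, Submodule.mkQ_apply, Submodule.Quotient.mk_eq_zero] at h4
      obtain ⟨y, hy⟩ := h4
      have h5 : s • y = t' • m := hy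
      have h6 : LocalizedModule.mk m t =
          (algebraMap S (Localization.AtPrime P) s) •
            LocalizedModule.mk y ((⟨t', ht'⟩ : P.primeCompl) * t) := by
        rw [← Localization.mk_one_eq_algebraMap, LocalizedModule.mk_smul_mk, one_mul, h5,
          LocalizedModule.mk_eq]
        refine ⟨1, ?_⟩
        simp only [one_smul]
        rw [mul_comm, mul_smul]
        rfl
      rw [h6]
      refine Submodule.smul_mem_smul ?_ Submodule.mem_top
      rw [← Localization.AtPrime.map_eq_maximalIdeal]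
      exact Ideal.mem_map_of_mem _ hs
  have h4 : (⊤ : Submodule (Localization.AtPrime P) (LocalizedModule P.primeCompl N)) = ⊥ := by
    refine Submodule.eq_bot_of_le_smul_of_le_jacobson_bot _ _ Module.Finite.fg_top h3 ?_
    rw [IsLocalRing.jacobson_eq_maximalIdeal _ bot_ne_top]
  apply h0
  rw [len_eq, Module.length_eq_zero_iff]
  exact Submodule.subsingleton_iff _ |>.1 (subsingleton_of_bot_eq_top h4.symm)

lemma len_pi (N : Type v) [AddCommGroup N] [Module S N] (n : ℕ) :
    len P (Fin n → N) = n * len P N := by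
  induction n with
  | zero =>
    rw [len_sub]
    simp
  | succ n ih =>
    have e : (Fin (n + 1) → N) ≃ₗ[S] N × (Fin n → N) :=
      (Fin.consLinearEquiv S (fun _ : Fin (n + 1) => N)).symm
    rw [len_equiv e, len_exact (P := P) (LinearMap.inl S N (Fin n → N))
      (LinearMap.snd S N (Fin n → N)) LinearMap.inl_injective LinearMap.snd_surjective
      Function.Exact.inl_snd, ih]
    push_cast
    ring

/-- Finitely generated modules killed by an ideal. -/
lemma len_ne_top_of_killed {N : Type v} [AddCommGroup N] [Module S N] [Module.Finite S N]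
    {I : Ideal S} (hI : ∀ s ∈ I, ∀ x : N, s • x = 0) (h : len P (S ⧸ I) ≠ ⊤) : len P N ≠ ⊤ := by
  obtain ⟨n, f, hf⟩ := Module.Finite.exists_fin' S N
  set W : Submodule S (Fin n → S) := Submodule.pi Set.univ (fun _ => (I : Submodule S S)) with hW
  have hle : W ≤ LinearMap.ker f := by
    intro x hx
    rw [LinearMap.mem_ker]
    have h1 : x = ∑ i, x i • Pi.single i (1 : S) := by
      funext j
      rw [Finset.sum_apply]
      simp [Pi.single_apply]
    rw [h1, map_sum]
    refine Finset.sum_eq_zero fun i _ => ?_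
    rw [map_smul]
    exact hI _ (hx i trivial) _
  have h1 : Function.Surjective (W.liftQ f hle) := by
    intro y
    obtain ⟨x, rfl⟩ := hf y
    exact ⟨W.mkQ x, rfl⟩
  have h2 := len_le_of_surjective (P := P) _ h1
  have e : ((Fin n → S) ⧸ W) ≃ₗ[S] (Fin n → S ⧸ (I : Submodule S S)) :=
    Submodule.quotientPi (fun _ => (I : Submodule S S))
  rw [len_equiv e, len_pi] at h2
  intro h3
  rw [h3, top_le_iff] at h2
  exact (WithTop.mul_ne_top (ENat.natCast_ne_top n) h) h2

end one

section two

variable {S : Type u} {R : Type v} [CommRing S] [CommRing R] [Algebra S R]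

/-- The length of an `R`-module, localized at a prime ideal of `S`. -/
noncomputable def lenS (R : Type v) [CommRing R] [Algebra S R] (P : Ideal S) (N : Type w)
    [AddCommGroup N] [Module R N] : ℕ∞ :=
  letI := Module.compHom N (algebraMap S R)
  len P N

lemma lenS_eq (P : Ideal S) (N : Type w) [AddCommGroup N] [Module R N] [inst : Module S N]
    [IsScalarTower S R N] : lenS R P N = len P N := by
  have h : inst = Module.compHom N (algebraMap S R) := by
    apply Module.ext'
    intro s x
    exact algebra_compatible_smul R s x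
  subst h
  rfl

variable {P : Ideal S} {N₁ : Type w} {N₂ : Type w} {N₃ : Type w} [AddCommGroup N₁] [AddCommGroup N₂]
  [AddCommGroup N₃] [Module R N₁] [Module R N₂] [Module R N₃]

lemma lenS_exact (f : N₁ →ₗ[R] N₂) (g : N₂ →ₗ[R] N₃) (hf : Function.Injective f)
    (hg : Function.Surjective g) (hfg : Function.Exact f g) :
    lenS R P N₂ = lenS R P N₁ + lenS R P N₃ := by
  let _ := Module.compHom N₁ (algebraMap S R)
  let _ := Module.compHom N₂ (algebraMap S R)
  let _ := Module.compHom N₃ (algebraMap S R)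
  let f' : N₁ →ₗ[S] N₂ :=
    { toFun := f
      map_add' := f.map_add
      map_smul' := fun s x => f.map_smul (algebraMap S R s) x }
  let g' : N₂ →ₗ[S] N₃ :=
    { toFun := g
      map_add' := g.map_add
      map_smul' := fun s x => g.map_smul (algebraMap S R s) x }
  exact len_exact f' g' hf hg hfg

lemma lenS_equiv (e : N₁ ≃ₗ[R] N₂) : lenS R P N₁ = lenS R P N₂ := by
  let _ := Module.compHom N₁ (algebraMap S R)
  let _ := Module.compHom N₂ (algebraMap S R)
  let e' : N₁ ≃ₗ[S] N₂ :=
    { e with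
      map_smul' := fun s x => e.map_smul (algebraMap S R s) x }
  exact len_equiv e'

lemma lenS_sub [Subsingleton N₁] : lenS R P N₁ = 0 := by
  let _ := Module.compHom N₁ (algebraMap S R)
  exact len_sub

/-- The prime ideals over `P`. -/
def Over (R : Type v) [CommRing R] [Algebra S R] (P : Ideal S) : Set (Ideal R) :=
  {P' | P'.IsPrime ∧ P'.comap (algebraMap S R) = P}

lemma over_minimal [Algebra.IsIntegral S R] {P : Ideal S} {P' : Ideal R}
    (h : P' ∈ Over R P) : P' ∈ (P.map (algebraMap S R)).minimalPrimes := by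
  obtain ⟨h1, h2⟩ := h
  refine ⟨⟨h1, ?_⟩, ?_⟩
  · rw [Ideal.map_le_iff_le_comap, h2]
  · rintro P'' ⟨h3, h4⟩ h5
    by_contra h6
    have h7 : P'' < P' := lt_of_le_not_ge h5 h6
    have h8 := Ideal.comap_lt_comap_of_integral_mem_sdiff (R := S) h5
      (Set.exists_of_ssubset h7).choose_spec
      (Algebra.IsIntegral.isIntegral (R := S) (Set.exists_of_ssubset h7).choose)
    rw [h2] at h8
    rw [Ideal.map_le_iff_le_comap] at h4
    exact absurd h8 (not_lt_of_ge h4)

lemma over_finite [Algebra.IsIntegral S R] [IsNoetherianRing R] (P : Ideal S) :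
    (Over R P).Finite :=
  (Ideal.finite_minimalPrimes_of_isNoetherianRing R (P.map (algebraMap S R))).subset
    fun _ h => over_minimal h

lemma over_incomp [Algebra.IsIntegral S R] {P : Ideal S} {P' P'' : Ideal R}
    (h : P' ∈ Over R P) (h' : P'' ∈ Over R P) (hle : P' ≤ P'') : P' = P'' := by
  by_contra hne
  have h7 : P' < P'' := lt_of_le_of_ne hle hne
  have hp := h.1
  have h8 := Ideal.comap_lt_comap_of_integral_mem_sdiff (R := S) hle
      (Set.exists_of_ssubset h7).choose_spec
      (Algebra.IsIntegral.isIntegral (R := S) (Set.exists_of_ssubset h7).choose)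
  rw [h.2, h'.2] at h8
  exact lt_irrefl _ h8

lemma len_ne_zero_of_le {𝔭 P : Ideal S} (h𝔭 : 𝔭.IsPrime) (hP : P.IsPrime) (hle : 𝔭 ≤ P) :
    len P (S ⧸ 𝔭) ≠ 0 := by
  intro h
  obtain ⟨t, ht, h1⟩ := exists_smul_eq_zero_of_len hP h (1 : S ⧸ 𝔭)
  apply ht
  apply hle
  rw [Algebra.smul_def, mul_one] at h1
  exact Ideal.Quotient.eq_zero_iff_mem.1 h1

lemma len_prime_eq_top [IsNoetherianRing S] {𝔭 P : Ideal S} (h𝔭 : 𝔭.IsPrime) (hP : P.IsPrime)
    (hlt : 𝔭 < P) : len P (S ⧸ 𝔭) = ⊤ := by
  obtain ⟨s, hs, hs'⟩ := Set.exists_of_ssubset hlt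
  refine len_eq_top hP hs ?_ (len_ne_zero_of_le h𝔭 hP hlt.le)
  intro x hx
  obtain ⟨y, rfl⟩ := Ideal.Quotient.mk_surjective x
  rw [Algebra.smul_def] at hx
  change Ideal.Quotient.mk 𝔭 s * Ideal.Quotient.mk 𝔭 y = 0 at hx
  rw [← map_mul, Ideal.Quotient.eq_zero_iff_mem] at hx
  exact Ideal.Quotient.eq_zero_iff_mem.2 ((h𝔭.mem_or_mem hx).resolve_left hs')

lemma lenS_ne_zero {𝔭 : Ideal R} (hP : P.IsPrime)
    (hle : 𝔭.comap (algebraMap S R) ≤ P) : lenS R P (R ⧸ 𝔭) ≠ 0 := by
  rw [lenS_eq]
  intro h
  obtain ⟨t, ht, h1⟩ := exists_smul_eq_zero_of_len hP h (1 : R ⧸ 𝔭)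
  apply ht
  apply hle
  rw [Algebra.smul_def, mul_one] at h1
  rw [Ideal.mem_comap]
  exact Ideal.Quotient.eq_zero_iff_mem.1
    (show Ideal.Quotient.mk 𝔭 (algebraMap S R t) = 0 from h1)

lemma lenS_over_ne_top [Module.Finite S R] (hP : P.IsPrime) {P' : Ideal R} (h : P' ∈ Over R P) :
    lenS R P (R ⧸ P') ≠ ⊤ := by
  rw [lenS_eq]
  refine len_ne_top_of_killed (I := P) ?_ ?_
  · intro s hs x
    obtain ⟨y, rfl⟩ := Ideal.Quotient.mk_surjective x
    rw [Algebra.smul_def]
    have h1 : algebraMap S (R ⧸ P') s = 0 := by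
      change Ideal.Quotient.mk P' (algebraMap S R s) = 0
      rw [Ideal.Quotient.eq_zero_iff_mem]
      rw [← h.2] at hs
      exact hs
    rw [h1, zero_mul]
  · rw [len_self hP]
    exact ENat.one_ne_top

/-- **The length of a module over a finite extension.** -/
theorem lenS_eq_sum [IsNoetherianRing S] [IsNoetherianRing R] [Module.Finite S R]
    (hP : P.IsPrime) {T : Finset (Ideal R)} (hT : ∀ P', P' ∈ T ↔ P' ∈ Over R P)
    (N : Type v) [AddCommGroup N] [Module R N] [hN : Module.Finite R N] :
    lenS R P N = ∑ P' ∈ T, len P' N * lenS R P (R ⧸ P') := by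
  induction hN using IsNoetherianRing.induction_on_isQuotientEquivQuotientPrime R with
  | subsingleton N =>
    rw [lenS_sub, Finset.sum_eq_zero]
    intro P' _
    rw [len_sub, zero_mul]
  | exact N₁ N₂ N₃ f g hf hg hfg h₁ h₃ =>
    rw [lenS_exact f g hf hg hfg, h₁, h₃, ← Finset.sum_add_distrib]
    refine Finset.sum_congr rfl fun P' _ => ?_
    rw [len_exact f g hf hg hfg, add_mul]
  | quotient N p e =>
    obtain ⟨𝔭, h𝔭⟩ := p
    rw [lenS_equiv e]
    have h0 : ∀ P' ∈ T, len P' N * lenS R P (R ⧸ P') =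
        len P' (R ⧸ 𝔭) * lenS R P (R ⧸ P') := by
      intro P' _
      rw [len_equiv e]
    rw [Finset.sum_congr rfl h0]
    by_cases hle : 𝔭.comap (algebraMap S R) ≤ P
    · rcases eq_or_lt_of_le hle with heq | hlt
      · have hmem : 𝔭 ∈ T := (hT 𝔭).2 ⟨h𝔭, heq⟩
        rw [Finset.sum_eq_single 𝔭, len_self h𝔭, one_mul]
        · intro P' hP' hne
          have h1 : ¬ 𝔭 ≤ P' := fun h =>
            hne (over_incomp ((hT 𝔭).1 hmem) ((hT P').1 hP') h).symm
          obtain ⟨r, hr, hr'⟩ := Set.not_subset.1 h1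
          rw [len_eq_zero (N₁ := R ⧸ 𝔭) hr', zero_mul]
          intro x
          rw [Algebra.smul_def]
          have h2 : algebraMap R (R ⧸ 𝔭) r = 0 := Ideal.Quotient.eq_zero_iff_mem.2 hr
          rw [h2, zero_mul]
        · intro h
          exact absurd hmem h
      · -- infinite length on both sides
        obtain ⟨s, hs, hs'⟩ := Set.exists_of_ssubset hlt
        have hL : lenS R P (R ⧸ 𝔭) = ⊤ := by
          have h1 := lenS_ne_zero (R := R) (𝔭 := 𝔭) hP hle
          rw [lenS_eq] at h1 ⊢
          refine len_eq_top hP hs ?_ h1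
          intro x hx
          obtain ⟨y, rfl⟩ := Ideal.Quotient.mk_surjective x
          rw [Algebra.smul_def] at hx
          change Ideal.Quotient.mk 𝔭 (algebraMap S R s) * Ideal.Quotient.mk 𝔭 y = 0 at hx
          rw [← map_mul, Ideal.Quotient.eq_zero_iff_mem] at hx
          exact Ideal.Quotient.eq_zero_iff_mem.2 ((h𝔭.mem_or_mem hx).resolve_left hs')
        obtain ⟨P', hle', hP', hcomap⟩ := Ideal.exists_ideal_over_prime_of_isIntegral P 𝔭 hle
        have hmem : P' ∈ T := (hT P').2 ⟨hP', hcomap⟩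
        have hlt' : 𝔭 < P' := by
          refine lt_of_le_of_ne hle' ?_
          rintro rfl
          rw [hcomap] at hlt
          exact lt_irrefl _ hlt
        have h1 : len P' (R ⧸ 𝔭) * lenS R P (R ⧸ P') = ⊤ := by
          rw [len_prime_eq_top h𝔭 hP' hlt']
          exact ENat.top_mul (lenS_ne_zero hP hcomap.le)
        rw [hL]
        symm
        rw [← top_le_iff, ← h1]
        exact Finset.single_le_sum (f := fun P' => len P' (R ⧸ 𝔭) * lenS R P (R ⧸ P'))
          (fun _ _ => zero_le) hmem
    · obtain ⟨s, hs, hs'⟩ := Set.not_subset.1 hle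
      have hs1 : algebraMap S R s ∈ 𝔭 := hs
      rw [lenS_eq, len_eq_zero (N₁ := R ⧸ 𝔭) hs', Finset.sum_eq_zero]
      · intro P' hP'
        have h1 : algebraMap S R s ∉ P' := by
          intro h
          apply hs'
          have h2 : s ∈ P'.comap (algebraMap S R) := h
          rw [((hT P').1 hP').2] at h2
          exact h2
        rw [len_eq_zero (N₁ := R ⧸ 𝔭) h1, zero_mul]
        intro x
        rw [Algebra.smul_def]
        have h2 : algebraMap R (R ⧸ 𝔭) (algebraMap S R s) = 0 :=
          Ideal.Quotient.eq_zero_iff_mem.2 hs1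
        rw [h2, zero_mul]
      · intro x
        rw [Algebra.smul_def]
        have h2 : algebraMap S (R ⧸ 𝔭) s = 0 := Ideal.Quotient.eq_zero_iff_mem.2 hs1
        rw [h2, zero_mul]

end two

end Pool.Agent.W5h86.HD
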