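import Pool.Agent.W5h86.HD.Desc
import Pool.Agent.W5h86.HC.Base

set_option autoImplicit false

/-!
# The induction for fields of a given cardinality
-/

universe u

namespace Pool.Agent.W5h86.HD

open MvPolynomial Pool.Agent.W5h86.HC

/-- All cycles of codimension `j`, outside of a hyperplane, on a hypersurface of degree `d` in the
projective space with `N` homogeneous coordinates, over a field of cardinality `c`, are rationally
equivalent to zero, if the hypersurface has a smooth linear section of dimension `2 j + 1`. -/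
def AffC (c : Cardinal.{u}) (d j N : ℕ) : Prop :=
  ∀ (K : Type u) [Field K] [CharZero K], Cardinal.mk K = c → ∀ (F : MvPolynomial (Fin N) K),
    IsHomogeneous F d → HasSec (2 * j + 3) F → ∀ r : Fin N → K, r ≠ 0 → ∀ t, t + j + 1 = N →
      ∀ P, IsSub t (lform r) P → F ∈ P → pt P ∈ Rel F t (lform r)

section card

variable {K : Type u} [Field K] {c : Cardinal.{u}}

lemma mk_polynomial (hc : Cardinal.aleph0 ≤ c) (hK : Cardinal.mk K = c) :
    Cardinal.mk (Polynomial K) = c := by
  rw [Polynomial.cardinalMk_eq_max, hK, max_eq_left hc]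

lemma mk_Kt (hc : Cardinal.aleph0 ≤ c) (hK : Cardinal.mk K = c) : Cardinal.mk (Kt K) = c := by
  rw [Cardinal.mk_fractionRing, mk_polynomial hc hK]

lemma mk_adjoinRoot (hc : Cardinal.aleph0 ≤ c) (hK : Cardinal.mk K = c) (π : Polynomial K)
    [Fact (Irreducible π)] : Cardinal.mk (AdjoinRoot π) = c := by
  apply le_antisymm
  · rw [← mk_polynomial hc hK]
    exact Cardinal.mk_le_of_surjective AdjoinRoot.mk_surjective
  · rw [← hK]
    exact Cardinal.mk_le_of_injective (algebraMap K (AdjoinRoot π)).injective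

end card

section step

variable {K : Type u} [Field K] [CharZero K] {M : ℕ}

/-- **The closed members of the pencil**. -/
theorem closed_caseC {c : Cardinal.{u}} (hc : Cardinal.aleph0 ≤ c) (hK : Cardinal.mk K = c)
    {d j : ℕ} (hj : 1 ≤ j)
    (ih : 1 < j → AffC c (d + 2) (j - 1) (M + 1))
    {G : MvPolynomial (Fin (M + 2)) K} (hG : IsHomogeneous G (d + 2))
    (hsec : HasSec (2 * j + 3) G) {t : ℕ} (ht : t + j + 1 = M + 2)
    {P : Ideal (MvPolynomial (Fin (M + 2)) K)} [P.IsPrime]
    (hP : IsSub t (X 0) P) (hGP : G ∈ P) (hval : IsAlgebraic K (val P)) :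
    pt P ∈ Rel G t (X 0) := by
  rcases Nat.lt_or_ge 1 j with h1 | h1
  · set π := minpoly K (val P) with hπ
    have hirr : Irreducible π := minpoly.irreducible hval.isIntegral
    have hfact : Fact (Irreducible π) := ⟨hirr⟩
    have hcz : CharZero (AdjoinRoot π) :=
      charZero_of_injective_algebraMap (algebraMap K (AdjoinRoot π)).injective
    have hsec' : HasSec (2 * (j - 1) + 3) (lsub K (fibMat (N := M) (AdjoinRoot.root π)) G) := by
      have h2 : 2 * j + 3 = (2 * (j - 1) + 3) + 2 := by omega
      rw [h2] at hsec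
      exact hsec.closed hG _
    obtain ⟨P', hP', hPP'⟩ := exists_over_closed π hP (minpoly.aeval K (val P))
    have h3 : (X 0 : MvPolynomial (Fin (M + 1)) (AdjoinRoot π)) = lform (Pi.single 0 1) :=
      (lform_single 0).symm
    have h4 := ih h1 (AdjoinRoot π) (mk_adjoinRoot hc hK π) _ (isHomogeneous_lsub _ hG) hsec' (Pi.single 0 1)
      (by simp) t (by omega) P' (by
        rw [← h3, ← lsub_fibMat_zero (K := K) (θ := AdjoinRoot.root π)]
        exact hP') (by
        rw [← hPP', Ideal.mem_comap] at hGP
        exact hGP)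
    rw [← h3, ← lsub_fibMat_zero (K := K) (θ := AdjoinRoot.root π)] at h4
    have h5 := pt_mem_of_pt_mem (isFib_fibMat (M := M) (hgen_adjoinRoot π)) (trdeg_adjoinRoot π)
      (F := G) hP' h4 (by
        intro Q' hQ' hGQ' P₂ hQP₂ hP₂ hno
        exfalso
        apply hno
        have hpi2Q : hom2 M π.natDegree π ∈
            Q'.comap (lsub K (fibMat (N := M) (AdjoinRoot.root π))) := by
          rw [Ideal.mem_comap, lsub_fibMat_hom2 le_rfl]
          have h6 : Polynomial.aeval (AdjoinRoot.root π) π = 0 := by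
            rw [AdjoinRoot.aeval_eq, AdjoinRoot.mk_self]
          rw [h6, map_zero, zero_mul]
          exact Q'.zero_mem
        have hprime := hP₂.prime
        exact exists_over_closed π hP₂ ((hom2_mem_iff hP₂ π).1 (hQP₂ hpi2Q)))
    rw [hPP'] at h5
    exact h5
  · have h2 : j = 1 := by omega
    subst h2
    have h3 : t = M := by omega
    subst h3
    exact closed_one hG hsec hP hGP hval

/-- **The generic member of the pencil**. -/
theorem generic_caseC {c : Cardinal.{u}} (hc : Cardinal.aleph0 ≤ c) (hK : Cardinal.mk K = c)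
    {d j : ℕ} (hj : 1 ≤ j)
    (ih : 1 < j → AffC c (d + 2) (j - 1) (M + 1))
    (ih' : AffC c (d + 2) j (M + 1))
    {G : MvPolynomial (Fin (M + 2)) K} (hG : IsHomogeneous G (d + 2))
    {A : Matrix (Fin (M + 2)) (Fin (2 * j + 3)) K} {A' : Matrix (Fin (2 * j + 3)) (Fin (M + 2)) K}
    (hA : A' * A = 1) (hA1 : A 1 = 0) (hAs : Smooth (lsub K A G))
    {t : ℕ} (ht : t + j + 1 = M + 2) {P : Ideal (MvPolynomial (Fin (M + 2)) K)}
    (hP : IsSub t (X 0) P) (hGP : G ∈ P) : pt P ∈ Rel G t (X 0) := by
  have hprime := hP.prime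
  by_cases hval : IsAlgebraic K (val P)
  · exact closed_caseC hc hK hj ih hG ⟨A, A', hA, hAs⟩ ht hP hGP hval
  · have hcz : CharZero (Kt K) :=
      charZero_of_injective_algebraMap (algebraMap K (Kt K)).injective
    have hsec' : HasSec (2 * j + 3) (lsub K (fibMat (N := M) (tt K)) G) :=
      hasSec_generic hG transcendental_tt hA hA1 hAs
    obtain ⟨t', P', ht', hP', hPP'⟩ := exists_over_generic hP hval
    subst ht'
    have h3 : (X 0 : MvPolynomial (Fin (M + 1)) (Kt K)) = lform (Pi.single 0 1) :=
      (lform_single 0).symm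
    have h4 := ih' (Kt K) (mk_Kt hc hK) _ (isHomogeneous_lsub _ hG) hsec' (Pi.single 0 1)
      (by simp) t' (by omega) P' (by
        rw [← h3, ← lsub_fibMat_zero (K := K) (θ := tt K)]
        exact hP') (by
        rw [← hPP', Ideal.mem_comap] at hGP
        exact hGP)
    rw [← h3, ← lsub_fibMat_zero (K := K) (θ := tt K)] at h4
    have hfib : IsFib (lsub K (fibMat (N := M) (tt K))) (X 0) :=
      isFib_fibMat (M := M) (θ := tt K) (hgen_Kt (K := K))
    have h5 := pt_mem_of_pt_mem hfib (trdeg_Kt (K := K))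
      (F := G) hP' h4 (by
        intro Q' hQ' hGQ' P₂ hQP₂ hP₂ hno
        have hprime := hP₂.prime
        have hGP₂ : G ∈ P₂ := hQP₂ hGQ'
        by_cases hval₂ : IsAlgebraic K (val P₂)
        · exact closed_caseC hc hK hj ih hG ⟨A, A', hA, hAs⟩ ht hP₂ hGP₂ hval₂
        · exfalso
          apply hno
          obtain ⟨t'', P'', ht'', hP'', hPP''⟩ := exists_over_generic hP₂ hval₂
          have h6 : t'' = t' := by omega
          subst h6
          exact ⟨P'', hP'', hPP''⟩)
    rw [hPP'] at h5
    exact h5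

end step

/-- **The induction.** -/
theorem affC_of_base {c : Cardinal.{u}} (hc : Cardinal.aleph0 ≤ c) {d i : ℕ}
    (hbase : ∀ j, 1 ≤ j → j ≤ i → AffC c (d + 2) j (2 * j + 3)) :
    ∀ N j, 1 ≤ j → j ≤ i → AffC c (d + 2) j N := by
  intro N
  induction N with
  | zero =>
    intro j hj _ K _ _ _ F hF hsec
    have := le_of_hasSec hsec
    omega
  | succ N ih =>
    intro j hj hji K _ _ hK F hF hsec r hr t ht P hP hFP
    have hle := le_of_hasSec hsec
    rcases Nat.eq_or_lt_of_le hle with heq | hlt
    · have h1 := hbase j hj hji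
      rw [heq] at h1
      exact h1 K hK F hF hsec r hr t ht P hP hFP
    · obtain ⟨M, rfl⟩ : ∃ M, N = M + 1 := ⟨N - 1, by omega⟩
      have hsec2 : HasSec ((2 * j + 2) + 1) F := hsec
      obtain ⟨g, g', hg, hg', hg0, A, A', hA, hA1, hAs⟩ :=
        hsec2.exists_good_coord hF (by omega) hr
      have hl : lsub K g (lform r) = X 0 := by
        rw [lsub_lform, ← lform_single]
        congr 1
        funext j
        have h1 := congrFun (congrFun hg' 0) j
        rw [Matrix.mul_apply, hg0] at h1
        simp only [Algebra.algebraMap_self, RingHom.id_apply]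
        rw [h1, Matrix.one_apply, Pi.single_apply]
        simp only [eq_comm]
      refine pt_mem_of_coord hg hg' ?_ hP hFP
      intro P' hP' hFP'
      rw [hl] at hP' ⊢
      exact generic_caseC hc hK hj (fun h1 => ih (j - 1) (by omega) (by omega)) (ih j hj hji)
        (isHomogeneous_lsub g hF) hA hA1 hAs ht hP' hFP'


end Pool.Agent.W5h86.HD
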