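import Pool.Agent.W5h86.HD.Main

set_option autoImplicit false

/-!
# The reduction to the complex numbers
-/

universe u

namespace Pool.Agent.W5h86.HD

open MvPolynomial Pool.Agent.W5h86.HC

/-- A field of characteristic zero with the cardinality of the continuum is a subfield of the field
of complex numbers over which the complex numbers are algebraic. -/
lemma exists_algebra_complex (K : Type) [Field K] [CharZero K]
    (hK : Cardinal.mk K = Cardinal.continuum) : ∃ _ : Algebra K ℂ, Algebra.IsAlgebraic K ℂ := by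
  have h1 : Cardinal.mk (AlgebraicClosure K) = Cardinal.continuum := by
    apply le_antisymm
    · have h2 := Algebra.IsAlgebraic.cardinalMk_le_max K (AlgebraicClosure K)
      rw [hK, max_eq_left Cardinal.aleph0_le_continuum] at h2
      exact h2
    · rw [← hK]
      exact Cardinal.mk_le_of_injective (algebraMap K (AlgebraicClosure K)).injective
  have hcz : CharZero (AlgebraicClosure K) :=
    charZero_of_injective_algebraMap (algebraMap K (AlgebraicClosure K)).injective
  obtain ⟨e⟩ := IsAlgClosed.ringEquiv_of_equiv_of_charZero (K := AlgebraicClosure K) (L := ℂ)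
    (by rw [h1]; exact Cardinal.aleph0_lt_continuum) (by
      rw [← Cardinal.eq, h1, Cardinal.mk_complex])
  let i1 : Algebra K ℂ := (e.toRingHom.comp (algebraMap K (AlgebraicClosure K))).toAlgebra
  refine ⟨i1, ?_⟩
  let e' : AlgebraicClosure K ≃ₐ[K] ℂ := { e with commutes' := fun x => rfl }
  exact e'.isAlgebraic

lemma smooth_map {K L : Type u} [Field K] [Field L] [Algebra K L] {N : ℕ}
    {F : MvPolynomial (Fin N) K} (h : Smooth F) : Smooth (map (algebraMap K L) F) := by
  intro M _ _ a ha h0
  let i1 : Algebra K M := ((algebraMap L M).comp (algebraMap K L)).toAlgebra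
  have i2 : IsScalarTower K L M := IsScalarTower.of_algebraMap_eq fun x => rfl
  rw [aeval_map_algebraMap] at h0
  obtain ⟨i, hi⟩ := h M a ha h0
  refine ⟨i, ?_⟩
  rw [pderiv_map, aeval_map_algebraMap]
  exact hi

/-- The affine statement for a single field follows from the projective one. -/
theorem affine_of_linSpan {d j : ℕ} (hj : 1 ≤ j) {K : Type u} [Field K] [CharZero K]
    (h : ∀ F : MvPolynomial (Fin (2 * j + 3)) K, IsHomogeneous F (d + 2) → Smooth F → LinSpan j F)
    (F : MvPolynomial (Fin (2 * j + 3)) K) (hF : IsHomogeneous F (d + 2))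
    (hsec : HasSec (2 * j + 3) F) (r : Fin (2 * j + 3) → K) (hr : r ≠ 0) (t : ℕ)
    (ht : t + j + 1 = 2 * j + 3) (P : Ideal (MvPolynomial (Fin (2 * j + 3)) K))
    (hP : IsSub t (lform r) P) (hFP : F ∈ P) : pt P ∈ Rel F t (lform r) := by
  obtain ⟨i, rfl⟩ : ∃ i, j = i + 1 := ⟨j - 1, by omega⟩
  obtain ⟨B, B', q, h1, h2, h3⟩ := exists_param (M := 2 * (i + 1) + 2) hr
  have hsec' : HasSec (2 * (i + 1) + 1) (lsub K B F) := by
    refine hsec.hyperplane (p := 2 * (i + 1) + 1) hF B r ?_
    intro w hw
    refine ⟨B'.mulVec w, ?_⟩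
    rw [Matrix.mulVec_mulVec, h2, Matrix.sub_mulVec, Matrix.one_mulVec, Matrix.vecMulVec_mulVec]
    have h5 : r ⬝ᵥ w = 0 := hw
    rw [h5]
    simp
  obtain ⟨ℓ, hℓ, hℓ0, hFℓ⟩ := exists_forms hr h3 (ne_zero_of_hasSec hsec') (i := i) (by omega)
  rw [← hℓ0] at hP ⊢
  exact pt_mem_rel (h F hF (smooth_of_hasSec hsec)) hℓ hFℓ ht hP hFP

section

attribute [local instance] MvPolynomial.algebraMvPolynomial

/-- **The boundary case for all fields of the cardinality of the continuum.** -/
theorem affC_base {d j : ℕ} (hj : 1 ≤ j)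
    (h : ∀ F : MvPolynomial (Fin (2 * j + 3)) ℂ, IsHomogeneous F (d + 2) → Smooth F →
      LinSpan j F) : AffC Cardinal.continuum.{0} (d + 2) j (2 * j + 3) := by
  intro K _ _ hK F hF hsec r hr t ht P hP hFP
  obtain ⟨i1, i2⟩ := exists_algebra_complex K hK
  obtain ⟨P', hP', hcomap⟩ := exists_over_isSub (Ω := ℂ) hP
  have hl : algebraMap (MvPolynomial (Fin (2 * j + 3)) K) (MvPolynomial (Fin (2 * j + 3)) ℂ)
      (lform r) = lform (fun k => algebraMap K ℂ (r k)) := by
    rw [algebraMap_eq_map]
    unfold lform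
    rw [map_sum]
    refine Finset.sum_congr rfl fun k _ => ?_
    rw [map_mul, map_C, map_X]
  have h1 : pt P' ∈ Rel (algebraMap (MvPolynomial (Fin (2 * j + 3)) K)
      (MvPolynomial (Fin (2 * j + 3)) ℂ) F) t (algebraMap (MvPolynomial (Fin (2 * j + 3)) K)
      (MvPolynomial (Fin (2 * j + 3)) ℂ) (lform r)) := by
    rw [hl]
    rw [hl] at hP'
    refine affine_of_linSpan hj h _ (hF.map _)
      (hasSec_self (smooth_map (smooth_of_hasSec hsec))) _ ?_ t ht P' hP' ?_
    · intro h2
      apply hr
      funext k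
      have h3 := congrFun h2 k
      rw [Pi.zero_apply, map_eq_zero] at h3
      exact h3
    · rw [← hcomap, Ideal.mem_comap] at hFP
      exact hFP
  have h2 := pt_mem_of_closure (K := K) (Ω := ℂ) hP' h1
  rw [hcomap] at h2
  exact h2

end

/-- From the affine statements to the projective one. -/
theorem linSpan_of_affC {c : Cardinal.{u}} {d i₀ : ℕ}
    (haff : ∀ N j, 1 ≤ j → j ≤ i₀ → AffC c (d + 2) j N) :
    ∀ i, i ≤ i₀ → ∀ N (K : Type u) [Field K] [CharZero K], Cardinal.mk K = c →
      ∀ (F : MvPolynomial (Fin N) K),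
      IsHomogeneous F (d + 2) → HasSec (2 * i + 3) F → LinSpan i F := by
  intro i
  induction i with
  | zero =>
    intro _ N K _ _ _ F _ hsec
    exact linSpan_zero hsec
  | succ i ih =>
    intro hi N K _ _ hK F hF hsec ℓ hℓ hFℓ t ht P hP hFP
    obtain ⟨M, rfl⟩ : ∃ M, N = M + 1 := ⟨N - 1, by omega⟩
    have hr : ℓ 0 ≠ 0 := hℓ.ne_zero 0
    -- the subvarieties of the hyperplane
    have key : ∀ P, IsSub t 1 P → F ∈ P → lform (ℓ 0) ∈ P →
        pt P ∈ Submodule.span ℚ {sect t F ℓ} ⊔ RatEq F t := by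
      intro P hP hFP hlP
      obtain ⟨B, B', q, h1, h2, h3⟩ := exists_param hr
      obtain ⟨P', hP', hPP'⟩ := exists_isSub_param h1 h2 hP hlP
      have hsec' : HasSec (2 * i + 3) (lsub K B F) := by
        have h4 : 2 * (i + 1) + 3 = (2 * i + 3) + 2 := by ring
        rw [h4] at hsec
        refine hsec.hyperplane hF B (ℓ 0) ?_
        intro w hw
        refine ⟨B'.mulVec w, ?_⟩
        rw [Matrix.mulVec_mulVec, h2, Matrix.sub_mulVec, Matrix.one_mulVec,
          Matrix.vecMulVec_mulVec]
        have h5 : ℓ 0 ⬝ᵥ w = 0 := hw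
        rw [h5]
        simp
      have hFℓ' : lsub K B F ∉ Ideal.span
          (Set.range fun k : Fin i => lform (Matrix.vecMul (ℓ k.succ) B)) := by
        intro h4
        apply hFℓ
        have h5 := span_comap h1 h2 h3 (⊥ : Ideal (MvPolynomial (Fin (M + 1)) K))
        rw [Ideal.map_bot, bot_sup_eq, bot_sup_eq] at h5
        rw [← h5]
        exact h4
      have h4 := ih (by omega) M K hK (lsub K B F) (isHomogeneous_lsub B hF) hsec'
        (fun k : Fin i => Matrix.vecMul (ℓ k.succ) B) (li_param h2 hℓ) hFℓ' t (by omega) P' hP'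
        (by
          rw [← hPP', Ideal.mem_comap] at hFP
          exact hFP)
      have h5 := Submodule.mem_map_of_mem (f := push (lsub K B) 1 t) h4
      rw [push_pt (isFib_param (K := K) h1) (by rw [map_one]; exact hP'), hPP',
        Submodule.map_sup, Submodule.map_span, Set.image_singleton,
        push_sect_param h1 h2 h3] at h5
      exact (sup_le_sup_left (push_ratEq_param h1 h2 h3) _) h5
    by_cases hlP : lform (ℓ 0) ∈ P
    · exact key P hP hFP hlP
    · have h1 := haff (M + 1) (i + 1) (by omega) hi K hK F hF hsec (ℓ 0) hr t ht P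
        (isSub_iff.2 ⟨hP, hlP⟩) hFP
      exact rel_le le_sup_right key h1

/-- **Hartshorne's conjecture follows from its boundary case over the complex numbers.** -/
theorem main_complex {d i : ℕ} (h : ∀ j, 1 ≤ j → j ≤ i →
      ∀ F : MvPolynomial (Fin (2 * j + 3)) ℂ, IsHomogeneous F (d + 2) → Smooth F → LinSpan j F)
    (N : ℕ) (F : MvPolynomial (Fin N) ℂ)
    (hF : IsHomogeneous F (d + 2)) (hsec : HasSec (2 * i + 3) F) : LinSpan i F :=
  linSpan_of_affC (affC_of_base Cardinal.aleph0_le_continuum fun j h1 h2 => affC_base h1 (h j h1 h2))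
    i le_rfl N ℂ Cardinal.mk_complex F hF hsec

end Pool.Agent.W5h86.HD
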