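import Pool.Agent.W5h86.HD.Main2
import Pool.Agent.W5h86.HD.Expand2
import Pool.Agent.W5h86.HD.AnyL

set_option autoImplicit false

/-!
# Multiples of the degree
-/

universe u

namespace Pool.Agent.W5h86.HD

open MvPolynomial Pool.Agent.W5h86.HC

lemma lsub_csub_phi {k : Type u} [Field k] {M p m : ℕ} (hm : 0 < m)
    (G : MvPolynomial (Fin (M + 1 + p)) k) :
    lsub k (csub k M p) (phi k k (M + 1 + p) m G) = phi k k (M + 1) m (lsub k (csub k M p) G) := by
  have h1 : (lsub k (csub k M p)).comp (phi k k (M + 1 + p) m) =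
      (phi k k (M + 1) m).comp (lsub k (csub k M p)) := by
    apply MvPolynomial.algHom_ext
    intro i
    rw [AlgHom.comp_apply, AlgHom.comp_apply, phi_X, map_pow]
    induction i using Fin.addCases with
    | left k => rw [lsub_csub_castAdd, phi_X]
    | right k => rw [lsub_csub_natAdd, map_zero, zero_pow (by omega)]
  exact congrArg (fun F => F G) h1

/-- **From the degree `m (d + 2)` to the degree `d + 2`.** -/
theorem rel_of_mult {k : Type u} [Field k] [CharZero k] {d j m N : ℕ} (hj : 1 ≤ j)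
    (hN : j + 2 ≤ N) (hm : 0 < m) (hζ : ∃ ζ : k, IsPrimitiveRoot ζ m)
    (h : ∀ F : MvPolynomial (Fin N) k, IsHomogeneous F (d + 2) → Smooth (phi k k N m F) →
      LinSpan j (phi k k N m F))
    {F : MvPolynomial (Fin N) k} (hF : IsHomogeneous F (d + 2)) (hs : Smooth F)
    {l : MvPolynomial (Fin N) k} {t : ℕ} (ht : t + j + 1 = N) {P : Ideal (MvPolynomial (Fin N) k)}
    (hP : IsSub t l P) (hFP : F ∈ P) : pt P ∈ Rel F t l := by
  obtain ⟨p, rfl⟩ : ∃ p, j = p + 1 := ⟨j - 1, by omega⟩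
  obtain ⟨M, rfl⟩ : ∃ M, N = M + 1 + p := ⟨N - (p + 1), by omega⟩
  obtain ⟨g, hg, hgs⟩ := exists_general_coord hF hs
  have hu : IsUnit g.det := isUnit_iff_ne_zero.2 hg
  refine pt_mem_of_coord (Matrix.mul_nonsing_inv g hu) (Matrix.nonsing_inv_mul g hu) ?_ hP hFP
  intro P₁ hP₁ hFP₁
  refine pt_mem_of_phi (K := k) (L := k) (m := m) (fun x => ⟨x, rfl⟩) hm hζ hP₁ hFP₁ ?_
  intro P₂ hP₂ hFP₂
  obtain ⟨e, he⟩ : ∃ e, m * (d + 2) = e + 2 := ⟨m * (d + 2) - 2, by
    have h1 : 1 * (d + 2) ≤ m * (d + 2) := Nat.mul_le_mul_right _ hm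
    omega⟩
  have hhom : IsHomogeneous (phi k k (M + 1 + p) m (lsub k g F)) (m * (d + 2)) :=
    isHomogeneous_phi m (isHomogeneous_lsub g hF)
  refine pt_mem_rel_any (by omega) (e := e) (by rw [← he]; exact hhom) ?_
    (h _ (isHomogeneous_lsub g hF) (smooth_phi hm hgs)) (by omega) hP₂ hFP₂
  rw [lsub_csub_phi hm, lsub_lsub]
  refine smooth_phi hm fun n e' => ?_
  have h1 : (g * csub k M p).submatrix id e' =
      g.submatrix id ((e'.trans (Fin.castAddEmb p)) : Fin n ↪ Fin (M + 1 + p)) := by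
    ext i j'
    rw [Matrix.submatrix_apply, Matrix.submatrix_apply, Matrix.mul_apply,
      Finset.sum_eq_single (Fin.castAdd p (e' j'))]
    · simp [csub]
    · intro i' _ hi'
      simp only [csub, Matrix.of_apply]
      rw [if_neg hi', mul_zero]
    · simp
  rw [h1]
  exact hgs n _

section

attribute [local instance] MvPolynomial.algebraMvPolynomial

/-- **The boundary case in degree `d + 2`** for all fields of the cardinality of the continuum. -/
theorem affC_base_mult {d j m : ℕ} (hj : 1 ≤ j) (hm : 0 < m)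
    (h : ∀ F : MvPolynomial (Fin (2 * j + 3)) ℂ, IsHomogeneous F (d + 2) →
      Smooth (phi ℂ ℂ _ m F) → LinSpan j (phi ℂ ℂ _ m F)) : AffC Cardinal.continuum.{0} (d + 2) j (2 * j + 3) := by
  intro K _ _ hK F hF hsec r _ t ht P hP hFP
  obtain ⟨i1, i2⟩ := exists_algebra_complex K hK
  obtain ⟨P', hP', hcomap⟩ := exists_over_isSub (Ω := ℂ) hP
  have h1 : pt P' ∈ Rel (algebraMap (MvPolynomial (Fin (2 * j + 3)) K)
      (MvPolynomial (Fin (2 * j + 3)) ℂ) F) t (algebraMap (MvPolynomial (Fin (2 * j + 3)) K)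
      (MvPolynomial (Fin (2 * j + 3)) ℂ) (lform r)) := by
    refine rel_of_mult hj (by omega) hm
      ⟨_, Complex.isPrimitiveRoot_exp m (by omega)⟩ h (hF.map _)
      (smooth_map (smooth_of_hasSec hsec)) ht hP' ?_
    rw [← hcomap, Ideal.mem_comap] at hFP
    exact hFP
  have h2 := pt_mem_of_closure (K := K) (Ω := ℂ) hP' h1
  rw [hcomap] at h2
  exact h2

end

lemma phi_eq_expand (k : Type u) [Field k] (N m : ℕ) : phi k k N m = expand m := by
  apply MvPolynomial.algHom_ext
  intro i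
  rw [phi_X, expand_X]

/-- **Hartshorne's conjecture follows from its boundary case over the complex numbers for
hypersurfaces which are given by polynomials in powers of the coordinates.** -/
theorem main_mult {d i : ℕ} {m : ℕ → ℕ} (hm : ∀ j, 1 ≤ j → j ≤ i → 0 < m j)
    (h : ∀ j, 1 ≤ j → j ≤ i → ∀ G : MvPolynomial (Fin (2 * j + 3)) ℂ,
      IsHomogeneous G (d + 2) → Smooth (expand (m j) G) → LinSpan j (expand (m j) G))
    {N : ℕ} {K : Type} [Field K] [CharZero K] (hK : Cardinal.mk K = Cardinal.continuum)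
    {F : MvPolynomial (Fin N) K} (hF : IsHomogeneous F (d + 2)) (hsec : HasSec (2 * i + 3) F) :
    LinSpan i F :=
  linSpan_of_affC (affC_of_base Cardinal.aleph0_le_continuum
    fun j h1 h2 => affC_base_mult h1 (hm j h1 h2) (by
      rw [phi_eq_expand]
      exact h j h1 h2)) i le_rfl N K hK F hF hsec

end Pool.Agent.W5h86.HD
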