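import Pool.Agent.W5h86.HD.Norm

set_option autoImplicit false

/-!
# Cycles on quotients by finite groups
-/

universe u v w x

namespace Pool.Agent.W5h86.HD

open Pool.Agent.W5h86.HC MvPolynomial

/-- Sums of powers. -/
lemma exists_sum_pow_ne_zero {D ι : Type*} [CommRing D] [IsDomain D] [CharZero D] (T : Finset ι)
    (hT : T.Nonempty) (x : ι → D) (hx : ∀ i ∈ T, x i ≠ 0) : ∃ k, 1 ≤ k ∧ ∑ i ∈ T, x i ^ k ≠ 0 := by
  classical
  by_contra hcon
  push Not at hcon
  have key : ∀ p : Polynomial D, ∑ i ∈ T, x i * p.eval (x i) = 0 := by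
    intro p
    induction p using Polynomial.induction_on' with
    | add p q hp hq =>
      simp only [Polynomial.eval_add, mul_add]
      rw [Finset.sum_add_distrib, hp, hq, add_zero]
    | monomial n a =>
      have h1 : ∀ i, x i * Polynomial.eval (x i) (Polynomial.monomial n a) = a * x i ^ (n + 1) := by
        intro i
        rw [Polynomial.eval_monomial]
        ring
      rw [Finset.sum_congr rfl fun i _ => h1 i, ← Finset.mul_sum, hcon (n + 1) (by omega), mul_zero]
  obtain ⟨i₀, hi₀⟩ := hT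
  set Y := (T.image x).erase (x i₀) with hY
  have h1 := key (∏ y ∈ Y, (Polynomial.X - Polynomial.C y))
  have h2 : ∀ i ∈ T, x i * (∏ y ∈ Y, (Polynomial.X - Polynomial.C y)).eval (x i) =
      if x i = x i₀ then x i₀ * ∏ y ∈ Y, (x i₀ - y) else 0 := by
    intro i hi
    rw [Polynomial.eval_prod]
    simp only [Polynomial.eval_sub, Polynomial.eval_X, Polynomial.eval_C]
    split_ifs with h
    · rw [h]
    · rw [Finset.prod_eq_zero (i := x i), mul_zero]
      · rw [hY, Finset.mem_erase]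
        exact ⟨h, Finset.mem_image_of_mem _ hi⟩
      · rw [sub_self]
  rw [Finset.sum_congr rfl h2, Finset.sum_ite, Finset.sum_const_zero, add_zero, Finset.sum_const,
    nsmul_eq_mul] at h1
  have h3 : x i₀ * ∏ y ∈ Y, (x i₀ - y) ≠ 0 := by
    refine mul_ne_zero (hx i₀ hi₀) (Finset.prod_ne_zero_iff.2 fun y hy => ?_)
    rw [hY, Finset.mem_erase] at hy
    exact sub_ne_zero.2 hy.1.symm
  have h4 : ((T.filter fun i => x i = x i₀).card : D) ≠ 0 := by
    rw [Nat.cast_ne_zero, Finset.card_ne_zero]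
    exact ⟨i₀, Finset.mem_filter.2 ⟨hi₀, rfl⟩⟩
  exact mul_ne_zero h4 h3 h1

section

variable {K L : Type u} [Field K] [Field L] {N N' : ℕ}
  [Algebra (MvPolynomial (Fin N) K) (MvPolynomial (Fin N') L)]
  {G : Type w} [Group G]

/-- A finite group acts on the second polynomial ring, with invariants in the first one. -/
structure IsQuot (ρ : G →* (MvPolynomial (Fin N') L ≃ₐ[MvPolynomial (Fin N) K]
    MvPolynomial (Fin N') L)) : Prop where
  isHom : ∀ P' : Ideal (MvPolynomial (Fin N') L), P'.IsPrime →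
    (IsHomIdeal (P'.comap (algebraMap (MvPolynomial (Fin N) K) (MvPolynomial (Fin N') L))) ↔
      IsHomIdeal P')
  trdeg : ∀ P' : Ideal (MvPolynomial (Fin N') L), P'.IsPrime →
    Algebra.trdeg K (MvPolynomial (Fin N) K ⧸
      P'.comap (algebraMap (MvPolynomial (Fin N) K) (MvPolynomial (Fin N') L))) =
    Algebra.trdeg L (MvPolynomial (Fin N') L ⧸ P')
  inv : ∀ (r : MvPolynomial (Fin N') L) (e : ℕ), IsHomogeneous r e → (∀ σ, ρ σ r = r) →
    ∃ (s : MvPolynomial (Fin N) K) (e' : ℕ), IsHomogeneous s e' ∧ algebraMap _ _ s = r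
  hom : ∀ (σ : G) (f : MvPolynomial (Fin N') L) (e : ℕ), IsHomogeneous f e →
    IsHomogeneous (ρ σ f) e

variable {ρ : G →* (MvPolynomial (Fin N') L ≃ₐ[MvPolynomial (Fin N) K] MvPolynomial (Fin N') L)}


lemma IsQuot.isSub_iff (h : IsQuot ρ) {P' : Ideal (MvPolynomial (Fin N') L)} (hP : P'.IsPrime) {t :
    ℕ} {l : (MvPolynomial (Fin N) K)} :
    IsSub t l (P'.comap (algebraMap (MvPolynomial (Fin N) K) (MvPolynomial (Fin N') L))) ↔ IsSub t
        (algebraMap (MvPolynomial (Fin N) K) (MvPolynomial (Fin N') L) l) P' := by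
  constructor
  · intro h1
    exact ⟨hP, (h.isHom P' hP).1 h1.hom, by rw [← h.trdeg P' hP]; exact h1.trdeg, h1.notMem⟩
  · intro h1
    exact ⟨hP.comap _, (h.isHom P' hP).2 h1.hom, by rw [h.trdeg P' hP]; exact h1.trdeg, h1.notMem⟩

lemma IsQuot.isSub_comap_equiv (h : IsQuot ρ) (σ : G) {P' : Ideal (MvPolynomial (Fin N') L)} {t :
    ℕ} {l : (MvPolynomial (Fin N) K)} :
    IsSub t (algebraMap (MvPolynomial (Fin N) K) (MvPolynomial (Fin N') L) l) (P'.comap (ρ σ :
        (MvPolynomial (Fin N') L) →+* (MvPolynomial (Fin N') L))) ↔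
      IsSub t (algebraMap (MvPolynomial (Fin N) K) (MvPolynomial (Fin N') L) l) P' := by
  constructor
  · intro h1
    have hP : P'.IsPrime := by
      have h2 := h1.prime
      have h3 : (P'.comap (ρ σ : (MvPolynomial (Fin N') L) →+* (MvPolynomial (Fin N') L))).comap
          ((ρ σ).symm : (MvPolynomial (Fin N') L) →+* (MvPolynomial (Fin N') L)) = P' := by
        ext x
        rw [Ideal.mem_comap, Ideal.mem_comap]
        change ρ σ ((ρ σ).symm x) ∈ P' ↔ _
        rw [AlgEquiv.apply_symm_apply]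
      rw [← h3]
      exact h2.comap _
    rw [← h.isSub_iff hP]
    rw [← h.isSub_iff h1.prime, comap_comap_equiv] at h1
    exact h1
  · intro h1
    have hP := h1.prime
    rw [← h.isSub_iff (hP.comap _), comap_comap_equiv, h.isSub_iff hP]
    exact h1

lemma IsQuot.idiv_comap (h : IsQuot ρ) (σ : G) {Q' : Ideal (MvPolynomial (Fin N') L)}
    (hσ : Q'.comap (ρ σ : (MvPolynomial (Fin N') L) →+* (MvPolynomial (Fin N') L)) = Q') {t : ℕ} {l
        : (MvPolynomial (Fin N) K)} (g : (MvPolynomial (Fin N') L)) (P' : Ideal (MvPolynomial (Fin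
            N') L)) :
    idiv t (algebraMap (MvPolynomial (Fin N) K) (MvPolynomial (Fin N') L) l) Q' (ρ σ g) P' =
      idiv t (algebraMap (MvPolynomial (Fin N) K) (MvPolynomial (Fin N') L) l) Q' g (P'.comap (ρ σ
          : (MvPolynomial (Fin N') L) →+* (MvPolynomial (Fin N') L))) := by
  by_cases hP : IsSub t (algebraMap (MvPolynomial (Fin N) K) (MvPolynomial (Fin N') L) l) P'
  · have hP2 := (h.isSub_comap_equiv (l := l) (t := t) σ).2 hP
    rw [idiv_of hP, idiv_of hP2]
    congr 1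
    have hinv : ∀ x, ρ σ ((ρ σ).symm x) = x := fun x => AlgEquiv.apply_symm_apply _ _
    rw [← mult_comap (ρ σ : (MvPolynomial (Fin N') L) →+* (MvPolynomial (Fin N') L)) hP.prime (fun
        y => ⟨1, (ρ σ).symm y, by
      rw [map_one]
      exact fun h1 => hP.prime.ne_top ((Ideal.eq_top_iff_one _).2 h1), by
      rw [map_one, one_mul]
      exact hinv y⟩) (Q' ⊔ Ideal.span {ρ σ g})]
    congr 1
    ext x
    rw [Ideal.mem_comap]
    constructor
    · intro hx
      obtain ⟨a, ha, b, hb, hab⟩ := Submodule.mem_sup.1 hx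
      obtain ⟨c, rfl⟩ := Ideal.mem_span_singleton'.1 hb
      have h2 : x = (ρ σ).symm a + (ρ σ).symm c * g := by
        apply (ρ σ).injective
        rw [map_add, map_mul, hinv, hinv]
        exact hab.symm
      rw [h2]
      refine Ideal.add_mem _ (Ideal.mem_sup_left ?_) (Ideal.mem_sup_right
        (Ideal.mul_mem_left _ _ (Ideal.mem_span_singleton_self _)))
      rw [← hσ, Ideal.mem_comap]
      change ρ σ ((ρ σ).symm a) ∈ Q'
      rw [hinv]
      exact ha
    · intro hx
      obtain ⟨a, ha, b, hb, rfl⟩ := Submodule.mem_sup.1 hx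
      obtain ⟨c, rfl⟩ := Ideal.mem_span_singleton'.1 hb
      change ρ σ (a + c * g) ∈ _
      rw [map_add, map_mul]
      refine Ideal.add_mem _ (Ideal.mem_sup_left ?_) (Ideal.mem_sup_right
        (Ideal.mul_mem_left _ _ (Ideal.mem_span_singleton_self _)))
      rw [← hσ, Ideal.mem_comap] at ha
      exact ha
  · have hP2 : ¬ IsSub t (algebraMap (MvPolynomial (Fin N) K) (MvPolynomial (Fin N') L) l)
      (P'.comap (ρ σ : (MvPolynomial (Fin N') L) →+* (MvPolynomial (Fin N') L))) := fun h1 =>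
      hP ((h.isSub_comap_equiv (l := l) (t := t) σ).1 h1)
    rw [idiv_of_not hP, idiv_of_not hP2]

lemma isHom_of_sum {P' : Ideal (MvPolynomial (Fin N') L)} {f : (MvPolynomial (Fin N') L)} (h : ∀ i,
    homogeneousComponent i f ∈ P') : f ∈ P' := by
  rw [← sum_homogeneousComponent f]
  exact Ideal.sum_mem _ fun i _ => h i

/-- Homogeneous elements which separate conjugate primes. -/
lemma IsQuot.exists_separating [Finite G] [Algebra.IsIntegral (MvPolynomial (Fin N) K)
    (MvPolynomial (Fin N') L)] (h : IsQuot ρ)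
    {Q' : Ideal (MvPolynomial (Fin N') L)} (hQ : Q'.IsPrime) (hQh : IsHomIdeal Q') :
    ∃ (w : (MvPolynomial (Fin N') L)) (e : ℕ), IsHomogeneous w e ∧ w ∉ Q' ∧
      ∀ σ : G, Q'.comap (ρ σ : (MvPolynomial (Fin N') L) →+* (MvPolynomial (Fin N') L)) ≠ Q' → ρ σ
          w ∈ Q' := by
  classical
  have := Fintype.ofFinite G
  set T : Finset G := Finset.univ.filter fun σ => Q'.comap (ρ σ : (MvPolynomial (Fin N') L) →+*
      (MvPolynomial (Fin N') L)) ≠ Q' with hT
  have h1 : ¬ (T.inf fun σ => Q'.comap (ρ σ : (MvPolynomial (Fin N') L) →+* (MvPolynomial (Fin N')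
      L))) ≤ Q' := by
    intro h2
    obtain ⟨σ, hσ, h3⟩ := (Ideal.IsPrime.inf_le' hQ).1 h2
    have h4 := (Finset.mem_filter.1 hσ).2
    exact h4 (over_incomp (S := (MvPolynomial (Fin N) K)) (P := Q'.comap (algebraMap (MvPolynomial
        (Fin N) K) (MvPolynomial (Fin N') L)))
      ⟨hQ.comap _, comap_comap_equiv _ _⟩ ⟨hQ, rfl⟩ h3)
  obtain ⟨x, hx, hx'⟩ := Set.not_subset.1 h1
  have h5 : ∃ i, homogeneousComponent i x ∉ Q' := by
    by_contra hcon
    push Not at hcon
    exact hx' (isHom_of_sum hcon)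
  obtain ⟨i, hi⟩ := h5
  refine ⟨homogeneousComponent i x, i, homogeneousComponent_isHomogeneous _ _, hi, ?_⟩
  intro σ hσ
  have h6 : (Q'.comap (ρ σ : (MvPolynomial (Fin N') L) →+* (MvPolynomial (Fin N') L))).IsPrime :=
      hQ.comap _
  have h7 : IsHomIdeal (Q'.comap (ρ σ : (MvPolynomial (Fin N') L) →+* (MvPolynomial (Fin N') L)))
      := by
    rw [← h.isHom _ h6, comap_comap_equiv, h.isHom _ hQ]
    exact hQh
  have h8 : x ∈ Q'.comap (ρ σ : (MvPolynomial (Fin N') L) →+* (MvPolynomial (Fin N') L)) := by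
    rw [SetLike.mem_coe, Submodule.mem_finsetInf] at hx
    exact hx σ (Finset.mem_filter.2 ⟨Finset.mem_univ _, hσ⟩)
  exact h7 x h8 i

lemma isSub_lift {t : ℕ} {l : (MvPolynomial (Fin N') L)} {P' : Ideal (MvPolynomial (Fin N') L)} (h
    : IsSub t l P') : IsSub t 1 P' :=
  (HC.isSub_iff.1 h).1

lemma Nm_idiv_map [Module.Finite (MvPolynomial (Fin N) K) (MvPolynomial (Fin N') L)] (h : IsQuot ρ)
    {t : ℕ} {l : (MvPolynomial (Fin N) K)} {Q' : Ideal (MvPolynomial (Fin N') L)}
    (hQ : IsSub (t + 1) (algebraMap (MvPolynomial (Fin N) K) (MvPolynomial (Fin N') L) l) Q') :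
    ∃ e : ℕ, 0 < e ∧ ∀ g : (MvPolynomial (Fin N) K), g ∉ Q'.comap (algebraMap (MvPolynomial (Fin N)
        K) (MvPolynomial (Fin N') L)) →
      Nm (MvPolynomial (Fin N) K) (idiv t (algebraMap (MvPolynomial (Fin N) K) (MvPolynomial (Fin
          N') L) l) Q' (algebraMap (MvPolynomial (Fin N) K) (MvPolynomial (Fin N') L) g)) =
        (e : ℚ) • idiv t l (Q'.comap (algebraMap (MvPolynomial (Fin N) K) (MvPolynomial (Fin N')
            L))) g := by
  have hQ2 := (h.isSub_iff hQ.prime).2 hQ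
  obtain ⟨e, he, hr⟩ := exists_rank (S := (MvPolynomial (Fin N) K)) hQ.prime
  refine ⟨e, he, fun g hg => ?_⟩
  funext P
  rw [Nm_apply, Pi.smul_apply, smul_eq_mul]
  by_cases hP : IsSub t l P
  · have h1 := hr P (fun a ha => len_ne_top_of_isSub hQ2 hP ha) g hg
    have hT : ∀ P', P' ∈ (over_finite (R := (MvPolynomial (Fin N') L)) P).toFinset ↔ P' ∈ Over
        (MvPolynomial (Fin N') L) P := fun P' =>
      Set.Finite.mem_toFinset _
    rw [lenS_eq_sum hP.prime hT] at h1
    have hsub : ∀ P' ∈ (over_finite (R := (MvPolynomial (Fin N') L)) P).toFinset, IsSub t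
        (algebraMap (MvPolynomial (Fin N) K) (MvPolynomial (Fin N') L) l) P' := by
      intro P' hP'
      rw [hT] at hP'
      rw [← h.isSub_iff hP'.1, hP'.2]
      exact hP
    have h2 := congrArg ENat.toNat h1
    rw [ENat.toNat_mul, ENat.toNat_sum] at h2
    · rw [idiv_of hP, mult_eq_len]
      rw [ENat.toNat_coe] at h2
      have h3 : (e : ℚ) * (len P ((MvPolynomial (Fin N) K) ⧸ (Q'.comap (algebraMap (MvPolynomial
          (Fin N) K) (MvPolynomial (Fin N') L)) ⊔ Ideal.span {g}))).toNat =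
          ((e * (len P ((MvPolynomial (Fin N) K) ⧸ (Q'.comap (algebraMap (MvPolynomial (Fin N) K)
              (MvPolynomial (Fin N') L)) ⊔ Ideal.span {g}))).toNat : ℕ) : ℚ) := by
        push_cast
        rfl
      rw [h3, h2, Nat.cast_sum]
      refine Finset.sum_congr rfl fun P' hP' => ?_
      rw [idiv_of (hsub P' hP'), mult_eq_len, ENat.toNat_mul, Nat.cast_mul, mul_comm]
      have h4 : P'.comap (algebraMap (MvPolynomial (Fin N) K) (MvPolynomial (Fin N') L)) = P :=
          ((hT P').1 hP').2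
      unfold fdeg
      rw [h4]
    · intro P' hP'
      refine WithTop.mul_ne_top (len_ne_top_of_isSub hQ (hsub P' hP') hg) ?_
      exact lenS_over_ne_top hP.prime ((hT P').1 hP')
  · rw [idiv_of_not hP, mul_zero, Finset.sum_eq_zero]
    intro P' hP'
    rw [Set.Finite.mem_toFinset] at hP'
    rw [idiv_of_not, mul_zero]
    intro h1
    rw [← h.isSub_iff hP'.1, hP'.2] at h1
    exact hP h1

end

end Pool.Agent.W5h86.HD
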