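import Pool.Agent.W5h86.HD.Len2

set_option autoImplicit false

/-!
# Multiplicities on a finite cover of a domain
-/

universe u v w x

namespace Pool.Agent.W5h86.HD

open Pool.Agent.W5h86.HC

lemma exists_free_sub {A B : Type*} [CommRing A] [IsDomain A] [CommRing B] [Nontrivial B]
    [Algebra A B] [Module.Finite A B] (hinj : Function.Injective (algebraMap A B)) :
    ∃ (e : ℕ) (ι : (Fin e → A) →ₗ[A] B) (a : A), 0 < e ∧ a ≠ 0 ∧ Function.Injective ι ∧
      ∀ b, a • b ∈ LinearMap.range ι := by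
  classical
  obtain ⟨n, v, hv⟩ := Module.Finite.exists_fin (R := A) (M := B)
  obtain ⟨s, hs, hs'⟩ := exists_maximal_linearIndepOn A v
  have h1 : ∀ i, ∃ a : A, a ≠ 0 ∧ a • v i ∈ Submodule.span A (v '' s) := by
    intro i
    by_cases hi : i ∈ s
    · exact ⟨1, one_ne_zero, by
        rw [one_smul]
        exact Submodule.subset_span ⟨i, hi, rfl⟩⟩
    · exact hs' i hi
  choose a ha ha' using h1
  set a₀ := ∏ i, a i with ha₀
  have h2 : ∀ b : B, a₀ • b ∈ Submodule.span A (v '' s) := by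
    intro b
    have hb : b ∈ Submodule.span A (Set.range v) := by
      rw [hv]
      trivial
    induction hb using Submodule.span_induction with
    | mem x hx =>
      obtain ⟨i, rfl⟩ := hx
      rw [ha₀, ← Finset.prod_erase_mul _ _ (Finset.mem_univ i), mul_smul]
      exact Submodule.smul_mem _ _ (ha' i)
    | zero =>
      rw [smul_zero]
      exact Submodule.zero_mem _
    | add x y _ _ hx hy =>
      rw [smul_add]
      exact Submodule.add_mem _ hx hy
    | smul c x _ hx =>
      rw [smul_comm]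
      exact Submodule.smul_mem _ _ hx
  have ha₀0 : a₀ ≠ 0 := Finset.prod_ne_zero_iff.2 fun i _ => ha i
  set E := (Fintype.equivFin s).symm with hE
  set e := Fintype.card s with he
  have hli : LinearIndependent A (fun k : Fin e => v (E k)) :=
    LinearIndependent.comp (v := fun k : s => v k) hs E E.injective
  set ι : (Fin e → A) →ₗ[A] B := Fintype.linearCombination A (fun k : Fin e => v (E k)) with hι
  have hιi : Function.Injective ι := by
    exact hli.fintypeLinearCombination_injective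
  have hr : LinearMap.range ι = Submodule.span A (v '' s) := by
    rw [hι, Fintype.range_linearCombination]
    congr 1
    ext x
    constructor
    · rintro ⟨k, rfl⟩
      exact ⟨E k, (E k).2, rfl⟩
    · rintro ⟨i, hi, rfl⟩
      exact ⟨E.symm ⟨i, hi⟩, by simp⟩
  refine ⟨e, ι, a₀, ?_, ha₀0, hιi, ?_⟩
  · by_contra h0
    have h3 : e = 0 := by omega
    have h4 := h2 1
    rw [← hr] at h4
    obtain ⟨x, hx⟩ := h4
    have h5 : x = 0 := by
      funext k
      exact absurd k.2 (by omega)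
    rw [h5, map_zero] at hx
    apply ha₀0
    apply hinj
    rw [map_zero, hx, Algebra.smul_def, mul_one]
  · rw [hr]
    exact h2

section coker

variable {S : Type u} [CommRing S] {P : Ideal S}
variable {N₁ : Type v} {N₂ : Type w} {N₃ : Type x} [AddCommGroup N₁] [AddCommGroup N₂]
  [AddCommGroup N₃] [Module S N₁] [Module S N₂] [Module S N₃]

lemma len_coker_eq {f : N₁ →ₗ[S] N₂} {π : N₂ →ₗ[S] N₃} (hπ : Function.Surjective π)
    (h : Function.Exact f π) : len P (N₂ ⧸ LinearMap.range f) = len P N₃ := by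
  have h1 : LinearMap.range f = LinearMap.ker π := (LinearMap.exact_iff.1 h).symm
  rw [h1]
  exact len_equiv (LinearMap.quotKerEquivOfSurjective π hπ)

lemma len_coker_comp (f : N₁ →ₗ[S] N₂) (h : N₂ →ₗ[S] N₃) (hh : Function.Injective h) :
    len P (N₃ ⧸ LinearMap.range (h ∘ₗ f)) =
      len P (N₂ ⧸ LinearMap.range f) + len P (N₃ ⧸ LinearMap.range h) := by
  have hle : LinearMap.range f ≤ (LinearMap.range (h ∘ₗ f)).comap h := by
    rintro _ ⟨x, rfl⟩
    exact ⟨x, rfl⟩
  have hle' : LinearMap.range (h ∘ₗ f) ≤ LinearMap.range h := LinearMap.range_comp_le_range f h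
  refine len_exact ((LinearMap.range f).mapQ (LinearMap.range (h ∘ₗ f)) h hle)
    (Submodule.factor hle') ?_ (Submodule.factor_surjective hle') ?_
  · rw [← LinearMap.ker_eq_bot, Submodule.ker_mapQ, LinearMap.range_comp,
      Submodule.comap_map_eq_of_injective hh, Submodule.mkQ_map_self]
  · rw [LinearMap.exact_iff]
    ext y
    obtain ⟨x, rfl⟩ := Submodule.Quotient.mk_surjective _ y
    rw [LinearMap.mem_ker]
    constructor
    · intro hx
      have h1 : Submodule.Quotient.mk x = (0 : N₃ ⧸ LinearMap.range h) := hx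
      rw [Submodule.Quotient.mk_eq_zero] at h1
      obtain ⟨z, rfl⟩ := h1
      exact ⟨Submodule.Quotient.mk z, rfl⟩
    · rintro ⟨z, hz⟩
      obtain ⟨z, rfl⟩ := Submodule.Quotient.mk_surjective _ z
      rw [← hz]
      change Submodule.Quotient.mk (h z) = (0 : N₃ ⧸ LinearMap.range h)
      rw [Submodule.Quotient.mk_eq_zero]
      exact ⟨z, rfl⟩

end coker

section quot

variable {S : Type u} {R : Type v} [CommRing S] [CommRing R] [Algebra S R]

/-- Multiplication by `g` on `R / Q`. -/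
lemma len_coker_mul (P : Ideal S) (Q : Ideal R) (g : S) :
    len P ((R ⧸ Q) ⧸ LinearMap.range (LinearMap.lsmul S (R ⧸ Q) g)) =
      len P (R ⧸ (Q ⊔ Ideal.span {algebraMap S R g})) := by
  have hle : Q ≤ Q ⊔ Ideal.span {algebraMap S R g} := le_sup_left
  set π : (R ⧸ Q) →ₗ[S] (R ⧸ (Q ⊔ Ideal.span {algebraMap S R g})) :=
    (Ideal.Quotient.factorₐ S hle).toLinearMap with hπ
  have h1 : ∀ x : R, π (Ideal.Quotient.mk Q x) = Ideal.Quotient.mk _ x := fun x => rfl
  refine len_coker_eq (π := π) ?_ ?_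
  · intro y
    obtain ⟨y, rfl⟩ := Ideal.Quotient.mk_surjective y
    exact ⟨Ideal.Quotient.mk Q y, rfl⟩
  · intro y
    obtain ⟨y, rfl⟩ := Ideal.Quotient.mk_surjective y
    rw [h1, Ideal.Quotient.eq_zero_iff_mem]
    constructor
    · intro hy
      obtain ⟨a, ha, b, hb, rfl⟩ := Submodule.mem_sup.1 hy
      obtain ⟨c, rfl⟩ := Ideal.mem_span_singleton'.1 hb
      refine ⟨Ideal.Quotient.mk Q c, ?_⟩
      rw [LinearMap.lsmul_apply, map_add, Ideal.Quotient.eq_zero_iff_mem.2 ha, zero_add,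
        Algebra.smul_def, mul_comm c, map_mul]
      rfl
    · rintro ⟨x, hx⟩
      obtain ⟨x, rfl⟩ := Ideal.Quotient.mk_surjective x
      rw [LinearMap.lsmul_apply, Algebra.smul_def] at hx
      have h2 : Ideal.Quotient.mk Q (algebraMap S R g * x) = Ideal.Quotient.mk Q y := by
        rw [← hx, map_mul]
        rfl
      rw [Ideal.Quotient.eq] at h2
      have h3 : y = algebraMap S R g * x - (algebraMap S R g * x - y) := by ring
      rw [h3]
      refine Ideal.sub_mem _ (Ideal.mem_sup_right ?_) (Ideal.mem_sup_left h2)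
      exact Ideal.mul_mem_right _ _ (Ideal.mem_span_singleton_self _)

/-- **The multiplicities on a finite cover.** -/
theorem exists_rank [Module.Finite S R] {Q' : Ideal R} (hQ' : Q'.IsPrime) :
    ∃ e : ℕ, 0 < e ∧ ∀ P : Ideal S,
      (∀ a : S, a ∉ Q'.comap (algebraMap S R) →
        len P (S ⧸ (Q'.comap (algebraMap S R) ⊔ Ideal.span {a})) ≠ ⊤) →
      ∀ g : S, g ∉ Q'.comap (algebraMap S R) →
        (e : ℕ∞) * len P (S ⧸ (Q'.comap (algebraMap S R) ⊔ Ideal.span {g})) =
          lenS R P (R ⧸ (Q' ⊔ Ideal.span {algebraMap S R g})) := by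
  set Q := Q'.comap (algebraMap S R) with hQ
  have hlies : Q'.LiesOver Q := ⟨rfl⟩
  have hQp : Q.IsPrime := Ideal.comap_isPrime _ _
  obtain ⟨e, ι, a, he, ha, hιi, hιr⟩ := exists_free_sub (A := S ⧸ Q) (B := R ⧸ Q')
    (FaithfulSMul.algebraMap_injective _ _)
  obtain ⟨a, rfl⟩ := Ideal.Quotient.mk_surjective a
  have haQ : a ∉ Q := fun h => ha (Ideal.Quotient.eq_zero_iff_mem.2 h)
  refine ⟨e, he, fun P hP g hg => ?_⟩
  set ι' : (Fin e → S ⧸ Q) →ₗ[S] (R ⧸ Q') := ι.restrictScalars S with hι'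
  have hι'i : Function.Injective ι' := hιi
  set f₁ : (Fin e → S ⧸ Q) →ₗ[S] (Fin e → S ⧸ Q) := LinearMap.lsmul S _ g with hf₁
  set f₂ : (R ⧸ Q') →ₗ[S] (R ⧸ Q') := LinearMap.lsmul S _ g with hf₂
  have hcomm : ι' ∘ₗ f₁ = f₂ ∘ₗ ι' := by
    ext x
    simp [hf₁, hf₂]
  have hf₂i : Function.Injective f₂ := by
    rw [injective_iff_map_eq_zero]
    intro y hy
    obtain ⟨y, rfl⟩ := Ideal.Quotient.mk_surjective y
    rw [hf₂, LinearMap.lsmul_apply, Algebra.smul_def] at hy
    change Ideal.Quotient.mk Q' (algebraMap S R g) * Ideal.Quotient.mk Q' y = 0 at hy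
    rw [← map_mul, Ideal.Quotient.eq_zero_iff_mem] at hy
    exact Ideal.Quotient.eq_zero_iff_mem.2 ((hQ'.mem_or_mem hy).resolve_left hg)
  have hC : len P ((R ⧸ Q') ⧸ LinearMap.range ι') ≠ ⊤ := by
    refine len_ne_top_of_killed (I := Q ⊔ Ideal.span {a}) ?_ (hP a haQ)
    intro s hs x
    obtain ⟨x, rfl⟩ := Submodule.Quotient.mk_surjective _ x
    rw [← Submodule.Quotient.mk_smul, Submodule.Quotient.mk_eq_zero]
    obtain ⟨b, hb, c, hc, rfl⟩ := Submodule.mem_sup.1 hs
    obtain ⟨c, rfl⟩ := Ideal.mem_span_singleton'.1 hc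
    rw [add_smul]
    refine Submodule.add_mem _ ?_ ?_
    · have h1 : b • x = 0 := by
        obtain ⟨x, rfl⟩ := Ideal.Quotient.mk_surjective x
        rw [Algebra.smul_def]
        change Ideal.Quotient.mk Q' (algebraMap S R b) * _ = 0
        rw [Ideal.Quotient.eq_zero_iff_mem.2 (show algebraMap S R b ∈ Q' from hb), zero_mul]
      rw [h1]
      exact Submodule.zero_mem _
    · rw [mul_smul]
      refine Submodule.smul_mem _ _ ?_
      obtain ⟨z, hz⟩ := hιr x
      refine ⟨z, ?_⟩
      change ι z = a • x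
      rw [hz]
      exact algebraMap_smul (S ⧸ Q) a x
  have h1 := len_coker_comp (P := P) f₁ ι' hι'i
  have h2 := len_coker_comp (P := P) ι' f₂ hf₂i
  rw [hcomm, h2, add_comm] at h1
  have h3 := ENat.add_left_injective_of_ne_top hC h1
  rw [hf₂, len_coker_mul] at h3
  rw [lenS_eq, h3]
  have h4 : LinearMap.range f₁ = Submodule.pi Set.univ
      (fun _ : Fin e => LinearMap.range (LinearMap.lsmul S (S ⧸ Q) g)) := by
    ext x
    rw [Submodule.mem_pi]
    constructor
    · rintro ⟨y, rfl⟩ i _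
      exact ⟨y i, rfl⟩
    · intro h
      choose y hy using fun i => h i trivial
      refine ⟨y, ?_⟩
      funext i
      exact hy i
  have e5 : ((Fin e → S ⧸ Q) ⧸ LinearMap.range f₁) ≃ₗ[S]
      (Fin e → (S ⧸ Q) ⧸ LinearMap.range (LinearMap.lsmul S (S ⧸ Q) g)) :=
    (Submodule.quotEquivOfEq _ _ h4).trans
      (Submodule.quotientPi (fun _ => LinearMap.range (LinearMap.lsmul S (S ⧸ Q) g)))
  rw [len_equiv e5, len_pi, len_coker_mul]
  rfl

end quot

end Pool.Agent.W5h86.HD
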